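import Pool.Agent.W259.GP.Fin

/-!
Consequences of `S_main`: points in the unit cube, travelling salesman tours.
-/

open MeasureTheory Finset Filter
open scoped Topology

namespace Pool.Agent.W259.GP

open Pool.Agent.H390R2.LP Pool.Agent.H785R2.LP Pool.Agent.H519R2.Coro Pool.Agent.H519R2.TSP
  Pool.Agent.Results.MP_08c4cb_co

/-- The number `f(n)` of points of the unit cube with mutual distances at least one. -/
theorem cube_bound' (h : S_main) (ε : ℝ) (hε : 0 < ε) : ∃ n0 : ℕ, ∀ n ≥ n0,
    Real.log (SpherePacking.f n) ≤ (n : ℝ) / 2 * Real.log n - (Real.log Real.pi - ε) * n := by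
  set δ := ε / 2 with hδ
  have hδ0 : 0 < δ := by positivity
  obtain ⟨n1, hn1⟩ := rho_bound h δ hδ0
  have e1 : ∀ᶠ n : ℕ in atTop, SpherePacking.er n / n < δ / 4 :=
    er_div.eventually_lt_const (by linarith)
  have e2 : ∀ᶠ n : ℕ in atTop, Real.log (2 * Real.pi * Real.exp 1) / 2 - δ / 4 <
      Real.log (V n) / n + Real.log n / 2 :=
    tendsto_log_V.eventually_const_lt (by linarith)
  obtain ⟨n2, hn2⟩ := Filter.eventually_atTop.1 (e1.and (e2.and (eventually_gt_atTop 0)))
  refine ⟨max n1 n2, fun n hn => ?_⟩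
  have h1 := hn1 n ((le_max_left _ _).trans hn)
  obtain ⟨h2, h3, hpos⟩ := hn2 n ((le_max_right _ _).trans hn)
  have hn0 : (0 : ℝ) < n := by exact_mod_cast hpos
  have : NeZero n := ⟨hpos.ne'⟩
  have hV := V_pos n
  have hf := f_le (n := n) hpos
  have hfpos : (0 : ℝ) < SpherePacking.f n := by
    have h4 := SpherePacking.one_le_f_mul (n := n) hpos
    have h5 := SpherePacking.om_pos n
    by_contra h
    push Not at h
    nlinarith
  have hlog : Real.log (SpherePacking.f n) + Real.log (V n) ≤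
      -(n * (cst - δ)) + n * Real.log 2 + 2 * SpherePacking.er n := by
    rw [← Real.log_mul hfpos.ne' hV.ne']
    have h6 : (SpherePacking.f n : ℝ) * V n ≤
        Real.exp (-(n * (cst - δ))) * 2 ^ n * Real.exp (2 * SpherePacking.er n) := by
      refine hf.trans ?_
      have : theta n ≤ Real.exp (-(n * (cst - δ))) := h1
      gcongr
    refine (Real.log_le_log (by positivity) h6).trans (le_of_eq ?_)
    rw [Real.log_mul (by positivity) (by positivity), Real.log_mul (by positivity) (by positivity),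
      Real.log_exp, Real.log_exp, Real.log_pow]
  rw [div_lt_iff₀ hn0] at h2
  have h7 : (Real.log (2 * Real.pi * Real.exp 1) / 2 - δ / 4) * n <
      Real.log (V n) + n / 2 * Real.log n := by
    have := mul_lt_mul_of_pos_right h3 hn0
    have h8 : (Real.log (V n) / n + Real.log n / 2) * n = Real.log (V n) + n / 2 * Real.log n := by
      field_simp
    rwa [h8] at this
  have h9 : cst - Real.log 2 + Real.log (2 * Real.pi * Real.exp 1) / 2 = Real.log Real.pi := by
    unfold cst
    rw [Real.log_div (by positivity) (Real.exp_pos 1).ne', Real.log_mul (by positivity)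
      (Real.exp_pos 1).ne', Real.log_mul two_ne_zero Real.pi_ne_zero, Real.log_exp]
    ring
  have h10 : Real.log Real.pi * n = (cst - Real.log 2 + Real.log (2 * Real.pi * Real.exp 1) / 2) * n := by
    rw [h9]
  have h11 : ε = 2 * δ := by rw [hδ]; ring
  rw [h11, sub_mul, h10]
  nlinarith [mul_pos hn0 hδ0]

theorem limsup_tt (h : S_main) : limsup tt atTop ≤ √(Real.exp 1 / (2 * Real.pi)) := by
  rw [← exp_cst]
  have hlim : Tendsto (fun δ : ℝ => Real.exp (-(cst - δ))) (𝓝 0) (𝓝 (Real.exp (-(cst - 0)))) := by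
    apply Continuous.tendsto
    fun_prop
  rw [sub_zero] at hlim
  refine le_of_forall_pos_le_add fun ε hε => ?_
  have h1 : ∀ᶠ δ in 𝓝[>] (0 : ℝ), Real.exp (-(cst - δ)) < Real.exp (-cst) + ε :=
    (hlim.mono_left nhdsWithin_le_nhds).eventually_lt_const (by linarith)
  obtain ⟨δ, hδ, hδ0⟩ := (h1.and self_mem_nhdsWithin).exists
  have hδ0' : (0 : ℝ) < δ := hδ0
  obtain ⟨n0, hn0⟩ := rho_bound h δ hδ0'
  refine limsup_le_of_le tt_bdd'.isCoboundedUnder_le ?_
  filter_upwards [eventually_ge_atTop n0, eventually_gt_atTop 0] with d hd hd0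
  have hd1 : (0 : ℝ) < d := by exact_mod_cast hd0
  calc tt d ≤ (Real.exp (-(d * (cst - δ)))) ^ ((1 : ℝ) / d) :=
        Real.rpow_le_rpow (Pool.Agent.H818R2.rho_nonneg d) (hn0 d hd) (by positivity)
    _ = Real.exp (-(cst - δ)) := by
        rw [← Real.exp_mul]
        congr 1
        field_simp
    _ ≤ Real.exp (-cst) + ε := hδ.le

theorem limsup_alpha_pi (h : S_main) : limsup alpha' atTop ≤ 1 / Real.pi := by
  rw [limsup_alpha]
  refine (mul_le_mul_of_nonneg_left (limsup_tt h) G_pos.le).trans (le_of_eq ?_)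
  unfold G
  have he := Real.exp_pos 1
  have hpi := Real.pi_pos
  rw [div_mul_eq_mul_div, div_eq_div_iff (by positivity) hpi.ne', one_mul, mul_assoc]
  have h1 : √(Real.exp 1 / (2 * Real.pi)) * Real.pi = √(Real.exp 1 * Real.pi / 2) := by
    rw [show Real.exp 1 * Real.pi / 2 = (Real.exp 1 / (2 * Real.pi)) * Real.pi ^ 2 by
      field_simp, Real.sqrt_mul (by positivity), Real.sqrt_sq hpi.le]
  rw [h1, show (2 : ℝ) * Real.pi * Real.exp 1 = (Real.exp 1 * Real.pi / 2) * 2 ^ 2 by ring,
    Real.sqrt_mul (by positivity), Real.sqrt_sq (by norm_num)]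
  ring

end Pool.Agent.W259.GP
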