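import Pool.Agent.W259.GP.Defs
import Pool.Agent.H390R2.LP.Main
import Pool.Agent.H390R2.LP.Hermite
import Pool.Agent.H519R2.Coro.Cube
import Pool.Agent.H519R2.Coro.TSP
import Pool.Agent.H232R2.LP.RhoBridge
import Pool.Agent.H818R2.Limit

/-!
Consequences of `S_main` for packings of balls.
-/

open MeasureTheory Finset Filter
open scoped Topology

namespace Pool.Agent.W259.GP

open Pool.Agent.H390R2.LP Pool.Agent.H785R2.LP

/-- the exponent, natural logarithm: `(1 / 2) log (2 π / e)` -/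
noncomputable def cst : ℝ := 1 / 2 * Real.log (2 * Real.pi / Real.exp 1)

theorem rhoStar_bound (h : S_main) (ε : ℝ) (hε : 0 < ε) :
    ∃ n0 : ℕ, ∀ n ≥ n0, rhoStar n ≤ ENNReal.ofReal (Real.exp (-(n * (cst - ε)))) := by
  obtain ⟨Ω, i1, i2, q, s, hs⟩ := h (ε / 3) (by positivity)
  obtain ⟨Ω', j1, j2, q', s', hg, hg0, -, hs'⟩ := exists_refine s (show 0 < ε / 3 by positivity)
  have hcE : cE s' hg = cval s' hg := rfl
  obtain ⟨n0, hn0⟩ := euclid iid s' hg hg0 (ε / 3) (by positivity)
  refine ⟨n0, fun n hn => (hn0 n hn).trans (ENNReal.ofReal_le_ofReal ?_)⟩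
  apply Real.exp_le_exp.mpr
  have h1 : cst - ε ≤ cE s' hg - ε / 3 := by
    rw [hcE]
    unfold cst
    linarith
  have := mul_le_mul_of_nonneg_left h1 (Nat.cast_nonneg (α := ℝ) n)
  linarith

theorem rho_bound (h : S_main) (ε : ℝ) (hε : 0 < ε) :
    ∃ n0 : ℕ, ∀ n ≥ n0, Pool.Agent.H818R2.rho n ≤ Real.exp (-(n * (cst - ε))) := by
  obtain ⟨n0, hn0⟩ := rhoStar_bound h ε hε
  exact ⟨n0, fun n hn => Pool.Agent.H232R2.LP.rho_le_of_rhoStar_le (Real.exp_pos _).le (hn0 n hn)⟩

/-- the exponent, binary logarithm -/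
theorem liminf_rate (h : S_main) :
    1 / 2 * Real.logb 2 (2 * Real.pi / Real.exp 1) ≤ liminf Pool.Agent.H818R2.rate atTop := by
  have hlog2 : 0 < Real.log 2 := Real.log_pos (by norm_num)
  refine le_of_forall_pos_le_add fun ε hε => ?_
  obtain ⟨n0, hn0⟩ := rho_bound h (ε * Real.log 2) (by positivity)
  have h1 : 1 / 2 * Real.logb 2 (2 * Real.pi / Real.exp 1) - ε
      ≤ liminf Pool.Agent.H818R2.rate atTop := by
    refine le_liminf_of_le (Pool.Agent.H818R2.rate_bdd atTop).isCoboundedUnder_ge ?_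
    filter_upwards [eventually_ge_atTop n0, eventually_gt_atTop 0] with n hn hpos
    have hn' : (0 : ℝ) < n := by exact_mod_cast hpos
    have h2 := Real.log_le_log (Pool.Agent.H818R2.rho_pos hpos) (hn0 n hn)
    rw [Real.log_exp] at h2
    unfold Pool.Agent.H818R2.rate Real.logb
    rw [le_div_iff₀ hn', ← neg_div, le_div_iff₀ hlog2]
    unfold cst at h2
    have e : (1 / 2 * (Real.log (2 * Real.pi / Real.exp 1) / Real.log 2) - ε) * n * Real.log 2
        = n * (1 / 2 * Real.log (2 * Real.pi / Real.exp 1) - ε * Real.log 2) := by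
      field_simp
    rw [e]
    linarith
  linarith

theorem exp_cst : Real.exp (-cst) = √(Real.exp 1 / (2 * Real.pi)) := by
  have h1 : (0 : ℝ) < 2 * Real.pi / Real.exp 1 := by positivity
  have h2 : -cst = 1 / 2 * Real.log (Real.exp 1 / (2 * Real.pi)) := by
    unfold cst
    rw [show Real.exp 1 / (2 * Real.pi) = (2 * Real.pi / Real.exp 1)⁻¹ by rw [inv_div],
      Real.log_inv]
    ring
  rw [h2, Real.sqrt_eq_rpow, Real.rpow_def_of_pos (by positivity)]
  congr 1
  ring

/-- Hermite's constant -/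
theorem hermite_bound (h : S_main) (ε : ℝ) (hε : 0 < ε) :
    ∀ᶠ n : ℕ in atTop, hermite n / n ≤ 1 / Real.pi ^ 2 + ε := by
  have hlog2 : 0 < Real.log 2 := Real.log_pos (by norm_num)
  have hpi := Real.pi_pos
  -- choice of the exponent
  have hlim : Tendsto (fun δ : ℝ => (4 : ℝ) ^ (1 - (cst - δ) / Real.log 2) /
      (2 * Real.pi * Real.exp 1)) (𝓝 0) (𝓝 ((4 : ℝ) ^ (1 - (cst - 0) / Real.log 2) /
      (2 * Real.pi * Real.exp 1))) := by
    apply Continuous.tendsto
    refine Continuous.div_const ?_ _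
    refine Continuous.rpow continuous_const ?_ (fun _ => Or.inl (by norm_num))
    fun_prop
  have hval : (4 : ℝ) ^ (1 - (cst - 0) / Real.log 2) / (2 * Real.pi * Real.exp 1)
      = 1 / Real.pi ^ 2 := by
    have h4 : (4 : ℝ) ^ (1 - (cst - 0) / Real.log 2) = 4 * (Real.exp 1 / (2 * Real.pi)) := by
      rw [Real.rpow_def_of_pos (by norm_num), show (4 : ℝ) = 2 ^ (2 : ℕ) by norm_num, Real.log_pow]
      have h5 : ((2 : ℕ) : ℝ) * Real.log 2 * (1 - (cst - 0) / Real.log 2)
          = 2 * Real.log 2 + Real.log (Real.exp 1 / (2 * Real.pi)) := by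
        have h2 : Real.log (Real.exp 1 / (2 * Real.pi)) = -(2 * cst) := by
          unfold cst
          rw [show Real.exp 1 / (2 * Real.pi) = (2 * Real.pi / Real.exp 1)⁻¹ by rw [inv_div],
            Real.log_inv]
          ring
        rw [h2]
        field_simp
        push_cast
        ring
      rw [h5, Real.exp_add, Real.exp_log (by positivity)]
      congr 1
      rw [show (2 : ℝ) * Real.log 2 = ((2 : ℕ) : ℝ) * Real.log 2 by norm_num, ← Real.log_pow,
        Real.exp_log (by positivity)]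
    rw [h4]
    have := Real.exp_pos 1
    field_simp
    ring
  rw [hval] at hlim
  have h1 : ∀ᶠ δ in 𝓝[>] (0 : ℝ), (4 : ℝ) ^ (1 - (cst - δ) / Real.log 2) /
      (2 * Real.pi * Real.exp 1) < 1 / Real.pi ^ 2 + ε / 2 :=
    (hlim.mono_left nhdsWithin_le_nhds).eventually_lt_const (by linarith)
  obtain ⟨δ, hδ, hδ0⟩ := (h1.and self_mem_nhdsWithin).exists
  have hδ0' : (0 : ℝ) < δ := hδ0
  obtain ⟨n0, hn0⟩ := rhoStar_bound h δ hδ0'
  set c : ℝ := (cst - δ) / Real.log 2 with hc
  have hrho : ∀ᶠ n : ℕ in atTop, rhoStar n ≤ ENNReal.ofReal (2 ^ (-(c * n))) := by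
    filter_upwards [eventually_ge_atTop n0] with n hn
    have h2 := hn0 n hn
    have e2 : (2 : ℝ) ^ (-(c * n)) = Real.exp (-(n * (cst - δ))) := by
      rw [Real.rpow_def_of_pos (by norm_num)]
      congr 1
      rw [hc]
      field_simp
    rw [e2]
    exact h2
  have h3 := hermite_asymp c hrho (ε / 2) (by positivity)
  filter_upwards [h3] with n hn
  linarith

theorem hermite_nonneg (n : ℕ) : 0 ≤ hermite n := by
  unfold hermite
  refine Real.iSup_nonneg fun A => div_nonneg ?_ (Real.rpow_nonneg (abs_nonneg _) _)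
  exact Real.iInf_nonneg fun w => Finset.sum_nonneg fun i _ => sq_nonneg _

theorem limsup_hermite (h : S_main) :
    limsup (fun n : ℕ => hermite n / n) atTop ≤ 1 / Real.pi ^ 2 := by
  refine le_of_forall_pos_le_add fun ε hε => ?_
  exact limsup_le_of_le (IsBoundedUnder.isCoboundedUnder_le
    ⟨0, eventually_map.mpr (Eventually.of_forall fun n =>
      div_nonneg (hermite_nonneg n) n.cast_nonneg)⟩) (hermite_bound h ε hε)

end Pool.Agent.W259.GP
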