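import Pool.Agent.W259.GP.Defs

/-!
Discretisation: from functions on the line to finite one-site states.
-/

open MeasureTheory Finset Filter
open scoped Topology

namespace Pool.Agent.W259.GP

open Pool.Agent.H390R2.LP Pool.Agent.H785R2.LP

theorem E_affine {Ω X : Type} [Fintype Ω] [DecidableEq Ω] (s : Site Ω X) (f g : Unit → X → ℝ)
    (α β : ℝ) (h : ∀ x, g () x = α * f () x + β) : s.E g = α ^ 2 * s.E f := by
  rw [E_eq, E_eq, mul_sum]
  refine sum_congr rfl fun i _ => ?_
  rw [mul_sum]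
  refine sum_congr rfl fun a _ => ?_
  rw [mul_sum]
  refine sum_congr rfl fun b _ => ?_
  by_cases hab : a = b
  · subst hab; simp
  · have h1 : ∑ ω, s.u a ω * g i (s.pos ω) * s.u b ω
        = α * ∑ ω, s.u a ω * f i (s.pos ω) * s.u b ω := by
      have h0 := s.u_orth a b
      rw [if_neg hab] at h0
      calc _ = ∑ ω, (α * (s.u a ω * f i (s.pos ω) * s.u b ω) + β * (s.u a ω * s.u b ω)) := by
            refine sum_congr rfl fun ω _ => ?_
            have : g i (s.pos ω) = α * f i (s.pos ω) + β := h _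
            rw [this]; ring
        _ = _ := by rw [sum_add_distrib, ← mul_sum, ← mul_sum, h0]; ring
    rw [h1]; ring

/-- grid points -/
noncomputable def yq (m : ℕ) (j : Fin (2 * m ^ 2 + 1)) : ℝ := ((j : ℝ) - (m : ℝ) ^ 2) / m

/-- Riemann sums -/
noncomputable def rs (m : ℕ) (f : ℝ → ℝ) : ℝ := (1 / (m : ℝ)) * ∑ j, f (yq m j)

section val

variable {ι J : Type} [Fintype J] [DecidableEq J]

/-- fourth roots -/
noncomputable def q4 (lam : J → ℝ) (j : J) : ℝ := √(√(lam j))

abbrev Dat (ι J : Type) : Type :=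
  (J → J → ℝ) × (J → J → ℝ) × (J → J → ℝ) × (ι → J → J → ℝ) × ℝ

noncomputable def vK (lam : J → ℝ) (d : Dat ι J) (i j : J) : ℝ := q4 lam i * q4 lam j * d.1 i j
noncomputable def vn (lam : J → ℝ) (d : Dat ι J) : ℝ := ∑ i, ∑ j, vK lam d i j ^ 2
noncomputable def vY (lam : J → ℝ) (d : Dat ι J) : ℝ :=
  ∑ i, ∑ j, vK lam d i j * (q4 lam i * q4 lam j * d.2.2.1 i j)
noncomputable def vX (lam : J → ℝ) (d : Dat ι J) : ℝ :=
  ∑ i, ∑ j, (q4 lam i * q4 lam j * d.2.1 i j) ^ 2
noncomputable def vP (lam : J → ℝ) (d : Dat ι J) (a : ι) : ℝ :=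
  ∑ i, ∑ j, vK lam d i j * (q4 lam i * q4 lam j * d.2.2.2.1 a i j)

noncomputable def val (lam : J → ℝ) (Λ : ι → ℝ) (F₀ : Finset ι) (ε : ℝ) (d : Dat ι J) : ℝ :=
  Real.log (vn lam d) - Real.log (1 + ε) + 1 / 2 * Real.log Real.pi + vY lam d / vn lam d
   - ∑ a ∈ F₀, vP lam d a / vn lam d * Real.log (Λ a)
   - ∑ i, Real.negMulLog ((∑ j, vK lam d i j ^ 2) / vn lam d)
   - 1 / 2 * Real.log (2 * Real.pi * Real.exp 1)
   - 1 / 2 * Real.log (2 / vn lam d * (vY lam d - vX lam d) + d.2.2.2.2) + Real.log 2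

/-- the discretised data -/
noncomputable def dat (b : ι → J → ℝ → ℝ) (m : ℕ) (F : Finset ι) : Dat ι J :=
  (fun i j => ∑ a ∈ F, rs m (fun x => b a i x * b a j x),
   fun i j => ∑ a ∈ F, rs m (fun x => x * (b a i x * b a j x)),
   fun i j => ∑ a ∈ F, rs m (fun x => x ^ 2 * (b a i x * b a j x)),
   fun a i j => rs m (fun x => b a i x * b a j x),
   1 / (6 * (m : ℝ) ^ 2))

omit [Fintype J] [DecidableEq J] in
theorem q4_pos {lam : J → ℝ} (hlam : ∀ j, 0 < lam j) (j : J) : 0 < q4 lam j :=
  Real.sqrt_pos.mpr (Real.sqrt_pos.mpr (hlam j))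

omit [Fintype J] [DecidableEq J] in
theorem q4_sq (lam : J → ℝ) (j : J) : q4 lam j ^ 2 = √(lam j) :=
  Real.sq_sqrt (Real.sqrt_nonneg _)

/-- a matrix close to a diagonal matrix -/
theorem form_close (s : J → ℝ) (K : J → J → ℝ) (e : ℝ)
    (h : ∀ i j, |K i j - if i = j then s i else 0| ≤ e) (w : J → ℝ) :
    |∑ i, ∑ j, w i * K i j * w j - ∑ i, s i * w i ^ 2| ≤ Fintype.card J * e * ∑ i, w i ^ 2 := by
  have h1 : ∑ i, ∑ j, w i * K i j * w j - ∑ i, s i * w i ^ 2
      = ∑ i, ∑ j, w i * (K i j - if i = j then s i else 0) * w j := by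
    rw [← sum_sub_distrib]
    refine sum_congr rfl fun i _ => ?_
    have : s i * w i ^ 2 = ∑ j, w i * (if i = j then s i else 0) * w j := by
      simp [sq]; ring
    rw [this, ← sum_sub_distrib]
    exact sum_congr rfl fun j _ => by ring
  rw [h1]
  have he : 0 ≤ e ∨ IsEmpty J := by
    by_cases hJ : Nonempty J
    · obtain ⟨j⟩ := hJ
      exact Or.inl (le_trans (abs_nonneg _) (h j j))
    · exact Or.inr (not_nonempty_iff.mp hJ)
  rcases he with he | he
  · calc |∑ i, ∑ j, w i * (K i j - if i = j then s i else 0) * w j|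
        ≤ ∑ i, ∑ j, |w i * (K i j - if i = j then s i else 0) * w j| :=
          (abs_sum_le_sum_abs _ _).trans (sum_le_sum fun i _ => abs_sum_le_sum_abs _ _)
      _ ≤ ∑ i : J, ∑ j : J, e * ((w i ^ 2 + w j ^ 2) / 2) := by
          refine sum_le_sum fun i _ => sum_le_sum fun j _ => ?_
          rw [abs_mul, abs_mul]
          have h2 : |w i| * |w j| ≤ (w i ^ 2 + w j ^ 2) / 2 := by
            nlinarith [sq_nonneg (|w i| - |w j|), sq_abs (w i), sq_abs (w j)]
          calc |w i| * |K i j - if i = j then s i else 0| * |w j|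
              = |K i j - if i = j then s i else 0| * (|w i| * |w j|) := by ring
            _ ≤ e * ((w i ^ 2 + w j ^ 2) / 2) :=
                mul_le_mul (h i j) h2 (by positivity) he
      _ = Fintype.card J * e * ∑ i, w i ^ 2 := by
          simp_rw [← mul_sum, ← sum_div, sum_add_distrib, sum_const, card_univ, nsmul_eq_mul]
          rw [← mul_sum]
          ring
  · simp

theorem site_of_dat (hsite : S_site) [DecidableEq ι] (b : ι → J → ℝ → ℝ) (lam : J → ℝ)
    (Λ : ι → ℝ) (hlam : ∀ j, 0 < lam j) (hΛ : ∀ i, 0 < Λ i ∧ Λ i ≤ 1)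
    (hform : ∀ x (F : Finset ι) (v : ι → ℝ), ∑ j, lam j * (∑ i ∈ F, v i * b i j x) ^ 2
      ≤ pp x * ∑ i ∈ F, Λ i * v i ^ 2)
    (F₀ F : Finset ι) (hF : F₀ ⊆ F) (m : ℕ) (hm : 0 < m)
    (hmJ : Fintype.card J ≤ (2 * m ^ 2 + 1) * F.card)
    (ε e : ℝ) (hε : 0 < ε)
    (he : ∀ j, Fintype.card J * e < √(lam j) ∧ Fintype.card J * e ≤ ε * √(lam j))
    (hK : ∀ i j, |vK lam (dat b m F) i j - if i = j then √(lam i) else 0| ≤ e)
    (hn : 0 < vn lam (dat b m F)) :
    ∃ s : Site (Fin (2 * m ^ 2 + 1) × F) (Fin (2 * m ^ 2 + 1)),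
      val lam Λ F₀ ε (dat b m F) ≤ cstar s := by
  classical
  set d : Dat ι J := dat b m F with hd
  set n : ℝ := vn lam d with hndef
  have hm' : (0 : ℝ) < m := by exact_mod_cast hm
  have hδ : (0 : ℝ) < 1 / (m : ℝ) := by positivity
  set δ : ℝ := 1 / (m : ℝ) with hδdef
  set y : Fin (2 * m ^ 2 + 1) → ℝ := yq m with hy
  set B : Fin (2 * m ^ 2 + 1) → F → J → ℝ := fun x a i => √δ * (q4 lam i * b a i (y x)) with hB
  have hsδ : √δ * √δ = δ := Real.mul_self_sqrt hδ.le
  have hsum : ∀ (φ : Fin (2 * m ^ 2 + 1) → ℝ) (i j : J), ∑ x, φ x * ∑ a, B x a i * B x a j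
      = q4 lam i * q4 lam j * ∑ a ∈ F, (δ * ∑ x, φ x * (b a i (y x) * b a j (y x))) := by
    intro φ i j
    have h1 : ∀ x, φ x * ∑ a, B x a i * B x a j
        = ∑ a ∈ F, q4 lam i * q4 lam j * δ * (φ x * (b a i (y x) * b a j (y x))) := by
      intro x
      rw [← Finset.sum_coe_sort F (fun a => q4 lam i * q4 lam j * δ *
        (φ x * (b a i (y x) * b a j (y x)))), mul_sum]
      refine sum_congr rfl fun a _ => ?_
      simp only [hB]
      calc φ x * (√δ * (q4 lam i * b a i (y x)) * (√δ * (q4 lam j * b a j (y x))))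
          = (√δ * √δ) * (q4 lam i * q4 lam j * (φ x * (b a i (y x) * b a j (y x)))) := by ring
        _ = _ := by rw [hsδ]; ring
    simp_rw [h1]
    rw [sum_comm, mul_sum]
    refine sum_congr rfl fun a _ => ?_
    rw [← mul_sum]
    ring
  -- the matrix `K`
  have hKB : ∀ i j, vK lam d i j = ∑ x, ∑ a, B x a i * B x a j := by
    intro i j
    have := hsum (fun _ => 1) i j
    simp only [one_mul] at this
    rw [this]
    rfl
  have h1B : ∀ i j, q4 lam i * q4 lam j * d.2.1 i j = ∑ x, y x * ∑ a, B x a i * B x a j := by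
    intro i j
    rw [hsum]
    rfl
  have h2B : ∀ i j, q4 lam i * q4 lam j * d.2.2.1 i j
      = ∑ x, y x ^ 2 * ∑ a, B x a i * B x a j := by
    intro i j
    rw [hsum]
    rfl
  have hPB : ∀ (a : F) i j, q4 lam i * q4 lam j * d.2.2.2.1 a i j
      = ∑ x, B x a i * B x a j := by
    intro a i j
    have : ∀ x, B x a i * B x a j = q4 lam i * q4 lam j * δ * (b a i (y x) * b a j (y x)) := by
      intro x
      simp only [hB]
      calc √δ * (q4 lam i * b a i (y x)) * (√δ * (q4 lam j * b a j (y x)))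
          = (√δ * √δ) * (q4 lam i * q4 lam j * (b a i (y x) * b a j (y x))) := by ring
        _ = _ := by rw [hsδ]; ring
    simp_rw [this, ← mul_sum]
    show q4 lam i * q4 lam j * rs m (fun x => b a i x * b a j x) = _
    unfold rs
    ring
  -- the weights
  set W : Fin (2 * m ^ 2 + 1) → F → ℝ := fun x a => ∑ i, ∑ j, B x a i * vK lam d i j * B x a j
    with hW
  have hW0 : ∀ x a, 0 ≤ W x a := by
    intro x a
    have : W x a = ∑ x', ∑ a', (∑ i, B x a i * B x' a' i) ^ 2 := by
      simp only [hW]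
      simp_rw [hKB, sq, sum_mul_sum]
      calc ∑ i, ∑ j, B x a i * (∑ x', ∑ a', B x' a' i * B x' a' j) * B x a j
          = ∑ i, ∑ j, ∑ x', ∑ a', B x a i * B x' a' i * (B x a j * B x' a' j) := by
            refine sum_congr rfl fun i _ => sum_congr rfl fun j _ => ?_
            rw [mul_sum, sum_mul]
            refine sum_congr rfl fun x' _ => ?_
            rw [mul_sum, sum_mul]
            exact sum_congr rfl fun a' _ => by ring
        _ = ∑ i, ∑ x', ∑ j, ∑ a', B x a i * B x' a' i * (B x a j * B x' a' j) :=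
            sum_congr rfl fun i _ => sum_comm
        _ = ∑ x', ∑ i, ∑ j, ∑ a', B x a i * B x' a' i * (B x a j * B x' a' j) := sum_comm
        _ = ∑ x', ∑ i, ∑ a', ∑ j, B x a i * B x' a' i * (B x a j * B x' a' j) :=
            sum_congr rfl fun x' _ => sum_congr rfl fun i _ => sum_comm
        _ = ∑ x', ∑ a', ∑ i, ∑ j, B x a i * B x' a' i * (B x a j * B x' a' j) :=
            sum_congr rfl fun x' _ => sum_comm
    rw [this]
    exact sum_nonneg fun x' _ => sum_nonneg fun a' _ => sq_nonneg _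
  have hWsum : ∀ (φ : Fin (2 * m ^ 2 + 1) → ℝ), ∑ x, φ x * ∑ a, W x a
      = ∑ i, ∑ j, vK lam d i j * ∑ x, φ x * ∑ a, B x a i * B x a j := by
    intro φ
    simp only [hW]
    calc ∑ x, φ x * ∑ a, ∑ i, ∑ j, B x a i * vK lam d i j * B x a j
        = ∑ x, ∑ i, ∑ j, vK lam d i j * (φ x * ∑ a, B x a i * B x a j) := by
          refine sum_congr rfl fun x _ => ?_
          rw [sum_comm, mul_sum]
          refine sum_congr rfl fun i _ => ?_
          rw [sum_comm, mul_sum]
          refine sum_congr rfl fun j _ => ?_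
          rw [mul_sum, mul_sum, mul_sum]
          exact sum_congr rfl fun a _ => by ring
      _ = ∑ i, ∑ x, ∑ j, vK lam d i j * (φ x * ∑ a, B x a i * B x a j) := sum_comm
      _ = ∑ i, ∑ j, ∑ x, vK lam d i j * (φ x * ∑ a, B x a i * B x a j) :=
          sum_congr rfl fun i _ => sum_comm
      _ = _ := by simp_rw [mul_sum]
  have hWtot : ∑ x, ∑ a, W x a = n := by
    have := hWsum (fun _ => 1)
    simp only [one_mul] at this
    rw [this]
    simp only [← hKB]
    rw [hndef]
    unfold vn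
    exact sum_congr rfl fun i _ => sum_congr rfl fun j _ => by ring
  have hWy : ∑ x, y x ^ 2 * ∑ a, W x a = vY lam d := by
    rw [hWsum (fun x => y x ^ 2)]
    unfold vY
    simp only [h2B]
  have hWP : ∀ a : F, ∑ x, W x a = vP lam d a := by
    intro a
    unfold vP
    simp only [hPB, hW]
    rw [sum_comm]
    refine sum_congr rfl fun i _ => ?_
    rw [sum_comm]
    refine sum_congr rfl fun j _ => ?_
    rw [mul_sum]
    exact sum_congr rfl fun x _ => by ring
  -- quadratic form estimates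
  have hcl := form_close (fun j => √(lam j)) (vK lam d) e hK
  have hinj : ∀ c : J → ℝ, (∀ i, ∑ j, vK lam d i j * c j = 0) → c = 0 := by
    intro c hc
    have h1 := hcl c
    have h2 : ∑ i, ∑ j, c i * vK lam d i j * c j = 0 := by
      refine sum_eq_zero fun i _ => ?_
      have : ∑ j, c i * vK lam d i j * c j = c i * ∑ j, vK lam d i j * c j := by
        rw [mul_sum]
        exact sum_congr rfl fun j _ => by ring
      rw [this, hc i, mul_zero]
    rw [h2, zero_sub, abs_neg] at h1
    have h3 : ∑ i, (√(lam i) - Fintype.card J * e) * c i ^ 2 ≤ 0 := by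
      have := (le_abs_self _).trans h1
      simp_rw [sub_mul, sum_sub_distrib, ← mul_sum]
      linarith
    have h4 : ∀ i ∈ (univ : Finset J), (√(lam i) - Fintype.card J * e) * c i ^ 2 = 0 := by
      rw [← sum_eq_zero_iff_of_nonneg]
      · refine le_antisymm h3 (sum_nonneg fun i _ => ?_)
        have := (he i).1
        have h5 : 0 ≤ √(lam i) - Fintype.card J * e := by linarith
        positivity
      · intro i _
        have := (he i).1
        have h5 : 0 ≤ √(lam i) - Fintype.card J * e := by linarith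
        positivity
    funext i
    have h5 := h4 i (mem_univ i)
    have h6 : √(lam i) - Fintype.card J * e ≠ 0 := by
      have := (he i).1
      linarith
    rcases mul_eq_zero.mp h5 with h7 | h7
    · exact absurd h7 h6
    · exact pow_eq_zero_iff (two_ne_zero) |>.mp h7
  set D : Fin (2 * m ^ 2 + 1) → F → ℝ := fun x a => (1 + ε) * δ * pp (y x) * Λ a / n with hD
  have hpp : ∀ x, 0 < pp x := by
    intro x
    unfold pp
    have : 0 < √Real.pi := Real.sqrt_pos.mpr Real.pi_pos
    positivity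
  have hD0 : ∀ x a, 0 < D x a := by
    intro x a
    have h1 := hpp (y x)
    have h2 := (hΛ a).1
    simp only [hD]
    positivity
  have hformD : ∀ x (v : F → ℝ), ∑ i, ∑ j, (∑ a, v a * B x a i) * vK lam d i j *
      (∑ a, v a * B x a j) ≤ n * ∑ a, D x a * v a ^ 2 := by
    intro x v
    set w : J → ℝ := fun i => ∑ a, v a * B x a i with hw
    set v' : ι → ℝ := fun i => if h : i ∈ F then v ⟨i, h⟩ else 0 with hv'
    have hv : ∀ a : F, v' a = v a := by
      intro a
      simp [hv']
    have hwi : ∀ i, w i = √δ * q4 lam i * ∑ a ∈ F, v' a * b a i (y x) := by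
      intro i
      rw [← Finset.sum_coe_sort F (fun a => v' a * b a i (y x)), mul_sum]
      simp only [hw]
      refine sum_congr rfl fun a _ => ?_
      rw [hv]
      simp only [hB]
      ring
    have h1 := (le_abs_self _).trans (hcl w)
    have h2 : ∑ i, ∑ j, w i * vK lam d i j * w j ≤ (1 + ε) * ∑ i, √(lam i) * w i ^ 2 := by
      have h3 : Fintype.card J * e * ∑ i, w i ^ 2 ≤ ε * ∑ i, √(lam i) * w i ^ 2 := by
        rw [mul_sum, mul_sum]
        refine sum_le_sum fun i _ => ?_
        have := mul_le_mul_of_nonneg_right (he i).2 (sq_nonneg (w i))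
        linarith
      linarith
    have h4 : ∀ i, √(lam i) * w i ^ 2 = δ * (lam i * (∑ a ∈ F, v' a * b a i (y x)) ^ 2) := by
      intro i
      rw [hwi]
      have h5 := q4_sq lam i
      have h6 : √(lam i) * √(lam i) = lam i := Real.mul_self_sqrt (hlam i).le
      calc √(lam i) * (√δ * q4 lam i * ∑ a ∈ F, v' a * b a i (y x)) ^ 2
          = √(lam i) * ((√δ * √δ) * (q4 lam i ^ 2) * (∑ a ∈ F, v' a * b a i (y x)) ^ 2) := by ring
        _ = (√(lam i) * √(lam i)) * (δ * (∑ a ∈ F, v' a * b a i (y x)) ^ 2) := by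
            rw [hsδ, h5]; ring
        _ = _ := by rw [h6]; ring
    have h5 : ∑ i, √(lam i) * w i ^ 2 ≤ δ * (pp (y x) * ∑ a ∈ F, Λ a * v' a ^ 2) := by
      simp_rw [h4, ← mul_sum]
      exact mul_le_mul_of_nonneg_left (hform (y x) F v') hδ.le
    have h6 : n * ∑ a, D x a * v a ^ 2 = (1 + ε) * (δ * (pp (y x) * ∑ a ∈ F, Λ a * v' a ^ 2)) := by
      rw [← Finset.sum_coe_sort F (fun a => Λ a * v' a ^ 2), mul_sum, mul_sum, mul_sum, mul_sum]
      refine sum_congr rfl fun a _ => ?_
      rw [hv]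
      simp only [hD]
      field_simp
    rw [h6]
    exact h2.trans (mul_le_mul_of_nonneg_left h5 (by linarith))
  obtain ⟨s, hS, hh, hE⟩ := hsite (2 * m ^ 2 + 1) F J B (vK lam d) D n
    (by rw [Fintype.card_coe]; exact hmJ) hKB hinj rfl hn hD0 hformD
  refine ⟨s, ?_⟩
  -- the entropy of the dephased state
  have hlogD : ∀ x (a : F), Real.log (D x a) = Real.log (1 + ε) - Real.log m
      - 1 / 2 * Real.log Real.pi - y x ^ 2 + Real.log (Λ a) - Real.log n := by
    intro x a
    have h1 := hpp (y x)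
    have h2 := (hΛ a).1
    have h3 : (0 : ℝ) < 1 + ε := by linarith
    have h4 : Real.log (pp (y x)) = - (1 / 2 * Real.log Real.pi) - y x ^ 2 := by
      unfold pp
      rw [Real.log_mul (by have := Real.sqrt_pos.mpr Real.pi_pos; positivity)
        (Real.exp_pos _).ne', Real.log_exp, Real.log_inv, Real.log_sqrt Real.pi_pos.le]
      ring
    simp only [hD]
    rw [Real.log_div (by positivity) hn.ne', Real.log_mul (by positivity) h2.ne',
      Real.log_mul (by positivity) h1.ne', Real.log_mul h3.ne' hδ.ne', h4, hδdef,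
      Real.log_div one_ne_zero hm'.ne', Real.log_one]
    ring
  have hhval : -(∑ x, ∑ a, W x a / n * Real.log (D x a))
      = - Real.log (1 + ε) + Real.log m + 1 / 2 * Real.log Real.pi + vY lam d / n
        - (∑ a ∈ F, vP lam d a / n * Real.log (Λ a)) + Real.log n := by
    have h1 : ∑ x, ∑ a, W x a / n * Real.log (D x a)
        = (∑ x, ∑ a, W x a) * ((Real.log (1 + ε) - Real.log m
          - 1 / 2 * Real.log Real.pi - Real.log n) / n)
          - (∑ x, y x ^ 2 * ∑ a, W x a) / n
          + ∑ a : F, (∑ x, W x a) / n * Real.log (Λ a) := by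
      have h2 : ∑ a : F, (∑ x, W x a) / n * Real.log (Λ a)
          = ∑ x, ∑ a : F, W x a / n * Real.log (Λ a) := by
        rw [sum_comm]
        refine sum_congr rfl fun a _ => ?_
        rw [sum_div, sum_mul]
      rw [h2, sum_mul, sum_div, ← sum_sub_distrib, ← sum_add_distrib]
      refine sum_congr rfl fun x _ => ?_
      rw [sum_mul, mul_sum, sum_div, ← sum_sub_distrib, ← sum_add_distrib]
      refine sum_congr rfl fun a _ => ?_
      rw [hlogD]
      ring
    rw [h1, hWtot, hWy]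
    simp_rw [hWP]
    rw [Finset.sum_coe_sort F (fun a => vP lam d a / n * Real.log (Λ a))]
    field_simp
    ring
  have hP0 : ∀ a ∈ F, vP lam d a / n * Real.log (Λ a) ≤ 0 := by
    intro a ha
    have h1 : vP lam d a = ∑ x, W x ⟨a, ha⟩ := (hWP ⟨a, ha⟩).symm
    have h2 : 0 ≤ vP lam d a := by
      rw [h1]
      exact sum_nonneg fun x _ => hW0 _ _
    have h3 : Real.log (Λ a) ≤ 0 := Real.log_nonpos (hΛ a).1.le (hΛ a).2
    exact mul_nonpos_of_nonneg_of_nonpos (by positivity) h3
  have hF₀ : ∑ a ∈ F, vP lam d a / n * Real.log (Λ a)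
      ≤ ∑ a ∈ F₀, vP lam d a / n * Real.log (Λ a) := by
    rw [← Finset.sum_sdiff hF]
    have : ∑ a ∈ F \ F₀, vP lam d a / n * Real.log (Λ a) ≤ 0 :=
      sum_nonpos fun a ha => hP0 a (mem_sdiff.mp ha).1
    linarith
  -- the energy
  have hEf : s.E (fun (_ : Unit) x => y x) = 2 / n * (vY lam d - vX lam d) := by
    rw [hE y]
    congr 2
    · rw [← hWy]
      exact sum_congr rfl fun x _ => by rw [mul_comm]
    · unfold vX
      simp only [h1B]
  have hgrid : s.E (gridf (2 * m ^ 2 + 1) 1) = (m : ℝ) ^ 2 * (2 / n * (vY lam d - vX lam d)) := by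
    rw [← hEf]
    refine E_affine s (fun (_ : Unit) x => y x) _ (m : ℝ) ((m : ℝ) ^ 2) fun x => ?_
    simp only [gridf, hy, yq]
    field_simp
    ring
  have hE0 : 0 ≤ 2 / n * (vY lam d - vX lam d) := by
    rw [← hEf]
    exact E_nonneg s _
  have hlogE : Real.log (s.E (gridf (2 * m ^ 2 + 1) 1) + 1 / 6)
      = 2 * Real.log m + Real.log (2 / n * (vY lam d - vX lam d) + d.2.2.2.2) := by
    have h1 : d.2.2.2.2 = 1 / (6 * (m : ℝ) ^ 2) := rfl
    have h2 : (0 : ℝ) < 1 / (6 * (m : ℝ) ^ 2) := by positivity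
    rw [hgrid, h1]
    have h3 : (m : ℝ) ^ 2 * (2 / n * (vY lam d - vX lam d)) + 1 / 6
        = (m : ℝ) ^ 2 * (2 / n * (vY lam d - vX lam d) + 1 / (6 * (m : ℝ) ^ 2)) := by
      field_simp
    rw [h3, Real.log_mul (by positivity) (by linarith), Real.log_pow]
    norm_num
  unfold val cstar
  rw [hlogE]
  have h1 := hhval ▸ hh
  rw [← hndef]
  linarith

end val

end Pool.Agent.W259.GP
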