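import Pool.Agent.W259.GP.AT

/-!
Discretisation: the limits.
-/

open MeasureTheory Finset Filter
open scoped Topology

namespace Pool.Agent.W259.GP

open Pool.Agent.H390R2.LP Pool.Agent.H785R2.LP

theorem dec_mul (f g : ℝ → ℝ) (hf : ∃ C, ∀ x, |f x| ≤ C * Real.exp (-x ^ 2 / 4))
    (hg : ∃ C, ∀ x, |g x| ≤ C * Real.exp (-x ^ 2 / 4)) (e : ℕ) (he : e ≤ 2) :
    ∃ C, ∀ x, |x ^ e * (f x * g x)| ≤ C * Real.exp (-x ^ 2 / 8) := by
  obtain ⟨C, hC⟩ := hf
  obtain ⟨C', hC'⟩ := hg
  have hC0 : 0 ≤ C := by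
    have := (abs_nonneg _).trans (hC 0)
    simpa using this
  have hC0' : 0 ≤ C' := by
    have := (abs_nonneg _).trans (hC' 0)
    simpa using this
  refine ⟨8 * (C * C'), fun x => ?_⟩
  have h1 : |x ^ e| ≤ 8 * Real.exp (x ^ 2 / 8) := by
    have h2 : x ^ 2 / 8 + 1 ≤ Real.exp (x ^ 2 / 8) := Real.add_one_le_exp _
    have h3 : |x ^ e| ≤ 1 + x ^ 2 := by
      rw [abs_pow]
      interval_cases e
      · simp; positivity
      · simp only [pow_one]
        nlinarith [sq_nonneg (|x| - 1), sq_abs x, abs_nonneg x]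
      · rw [sq_abs]; linarith
    nlinarith [sq_nonneg x]
  rw [abs_mul, abs_mul]
  calc |x ^ e| * (|f x| * |g x|)
      ≤ (8 * Real.exp (x ^ 2 / 8)) * ((C * Real.exp (-x ^ 2 / 4)) * (C' * Real.exp (-x ^ 2 / 4))) := by
        refine mul_le_mul h1 (mul_le_mul (hC x) (hC' x) (abs_nonneg _) (by positivity))
          (by positivity) (by positivity)
    _ = 8 * (C * C') * Real.exp (x ^ 2 / 8 + (-x ^ 2 / 4) + (-x ^ 2 / 4)) := by
        rw [Real.exp_add, Real.exp_add]; ring
    _ ≤ 8 * (C * C') * Real.exp (-x ^ 2 / 8) := by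
        refine mul_le_mul_of_nonneg_left (Real.exp_le_exp.mpr ?_) (by positivity)
        nlinarith [sq_nonneg x]

theorem integrable_of_dec (f : ℝ → ℝ) (hf : Continuous f)
    (h : ∃ C, ∀ x, |f x| ≤ C * Real.exp (-x ^ 2 / 8)) : Integrable f := by
  obtain ⟨C, hC⟩ := h
  have h1 : Integrable (fun x : ℝ => C * Real.exp (-x ^ 2 / 8)) := by
    have := integrable_exp_neg_mul_sq (show (0 : ℝ) < 1 / 8 by norm_num)
    refine (this.const_mul C).congr (Eventually.of_forall fun x => ?_)
    simp only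
    congr 2
    ring
  exact h1.mono' hf.aestronglyMeasurable (Eventually.of_forall fun x => by
    rw [Real.norm_eq_abs]; exact hC x)

section val

variable {ι J : Type} [Fintype J] [DecidableEq J]

theorem cont_vK (lam : J → ℝ) (i j : J) : Continuous fun d : Dat ι J => vK lam d i j := by
  unfold vK; fun_prop

theorem cont_vn (lam : J → ℝ) : Continuous fun d : Dat ι J => vn lam d := by
  unfold vn vK; fun_prop

theorem cont_vY (lam : J → ℝ) : Continuous fun d : Dat ι J => vY lam d := by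
  unfold vY vK; fun_prop

theorem cont_vX (lam : J → ℝ) : Continuous fun d : Dat ι J => vX lam d := by
  unfold vX; fun_prop

theorem cont_vP (lam : J → ℝ) (a : ι) : Continuous fun d : Dat ι J => vP lam d a := by
  unfold vP vK; fun_prop

theorem contAt_val (lam : J → ℝ) (Λ : ι → ℝ) (F₀ : Finset ι) (ε : ℝ) (d : Dat ι J)
    (hn : vn lam d ≠ 0) (hE : 2 / vn lam d * (vY lam d - vX lam d) + d.2.2.2.2 ≠ 0) :
    ContinuousAt (fun d : Dat ι J => val lam Λ F₀ ε d) d := by
  have h1 : ContinuousAt (fun d : Dat ι J => vn lam d) d := (cont_vn lam).continuousAt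
  have h2 : ContinuousAt (fun d : Dat ι J => vY lam d) d := (cont_vY lam).continuousAt
  have h3 : ContinuousAt (fun d : Dat ι J => vX lam d) d := (cont_vX lam).continuousAt
  have h4 : ∀ a, ContinuousAt (fun d : Dat ι J => vP lam d a) d :=
    fun a => (cont_vP lam a).continuousAt
  have h5 : ∀ i j, ContinuousAt (fun d : Dat ι J => vK lam d i j) d :=
    fun i j => (cont_vK lam i j).continuousAt
  have h6 : ContinuousAt (fun d : Dat ι J => d.2.2.2.2) d := by fun_prop
  unfold val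
  refine ContinuousAt.add (ContinuousAt.sub (ContinuousAt.sub (ContinuousAt.sub (ContinuousAt.sub
    (ContinuousAt.add (ContinuousAt.add (ContinuousAt.sub (h1.log hn) continuousAt_const)
    continuousAt_const) (h2.div h1 hn)) ?_) ?_) continuousAt_const) ?_) continuousAt_const
  · exact tendsto_finsetSum _ fun a _ => ((h4 a).div h1 hn).mul continuousAt_const
  · refine tendsto_finsetSum _ fun i _ => ?_
    have h7 : ContinuousAt (fun d : Dat ι J => (∑ j, vK lam d i j ^ 2) / vn lam d) d :=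
      ContinuousAt.div (tendsto_finsetSum _ fun j _ => (h5 i j).pow 2) h1 hn
    exact Real.continuous_negMulLog.continuousAt.comp h7
  · exact continuousAt_const.mul (((continuousAt_const.div h1 hn).mul (h2.sub h3)).add h6 |>.log hE)

/-- values at the limit data -/
theorem vK_lim (lam : J → ℝ) (d : Dat ι J)
    (hd : ∀ i j, d.1 i j = if i = j then 1 else 0) (i j : J) :
    vK lam d i j = if i = j then √(lam i) else 0 := by
  unfold vK
  rw [hd]
  split_ifs with h
  · subst h
    rw [← q4_sq]; ring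
  · ring

theorem vn_lim (lam : J → ℝ) (hlam : ∀ j, 0 < lam j) (d : Dat ι J)
    (hd : ∀ i j, d.1 i j = if i = j then 1 else 0) : vn lam d = ∑ j, lam j := by
  unfold vn
  refine sum_congr rfl fun i _ => ?_
  simp_rw [vK_lim lam d hd]
  simp [ite_pow, Real.sq_sqrt (hlam i).le]

theorem vY_lim (lam : J → ℝ) (hlam : ∀ j, 0 < lam j) (d : Dat ι J)
    (hd : ∀ i j, d.1 i j = if i = j then 1 else 0) :
    vY lam d = ∑ j, lam j * d.2.2.1 j j := by
  unfold vY
  refine sum_congr rfl fun i _ => ?_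
  simp_rw [vK_lim lam d hd]
  simp only [ite_mul, zero_mul, sum_ite_eq, mem_univ, if_true]
  have h1 := q4_sq lam i
  have h2 := Real.mul_self_sqrt (hlam i).le
  calc √(lam i) * (q4 lam i * q4 lam i * d.2.2.1 i i)
      = √(lam i) * (q4 lam i ^ 2) * d.2.2.1 i i := by ring
    _ = _ := by rw [h1, h2]

theorem vP_lim (lam : J → ℝ) (hlam : ∀ j, 0 < lam j) (d : Dat ι J)
    (hd : ∀ i j, d.1 i j = if i = j then 1 else 0) (a : ι) :
    vP lam d a = ∑ j, lam j * d.2.2.2.1 a j j := by
  unfold vP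
  refine sum_congr rfl fun i _ => ?_
  simp_rw [vK_lim lam d hd]
  simp only [ite_mul, zero_mul, sum_ite_eq, mem_univ, if_true]
  have h1 := q4_sq lam i
  have h2 := Real.mul_self_sqrt (hlam i).le
  calc √(lam i) * (q4 lam i * q4 lam i * d.2.2.2.1 a i i)
      = √(lam i) * (q4 lam i ^ 2) * d.2.2.2.1 a i i := by ring
    _ = _ := by rw [h1, h2]

theorem vX_lim (lam : J → ℝ) (hlam : ∀ j, 0 < lam j) (d : Dat ι J) :
    vX lam d = ∑ i, ∑ j, √(lam i * lam j) * d.2.1 i j ^ 2 := by
  unfold vX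
  refine sum_congr rfl fun i _ => sum_congr rfl fun j _ => ?_
  rw [mul_pow, mul_pow, q4_sq, q4_sq, Real.sqrt_mul (hlam i).le]

theorem val_lim (lam : J → ℝ) (hlam : ∀ j, 0 < lam j) [Nonempty J] (Λ : ι → ℝ) (F₀ : Finset ι)
    (ε : ℝ) (d : Dat ι J)
    (hd : ∀ i j, d.1 i j = if i = j then 1 else 0) (ht : d.2.2.2.2 = 0) :
    val lam Λ F₀ ε d = (1 / 2 * Real.log Real.pi * ∑ j, lam j + ∑ j, lam j * d.2.2.1 j j
        - ∑ i ∈ F₀, (∑ j, lam j * d.2.2.2.1 i j j) * Real.log (Λ i)
        + ∑ j, lam j * Real.log (lam j)) / ∑ j, lam j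
      - 1 / 2 * Real.log (2 * Real.pi * Real.exp 1)
      - 1 / 2 * Real.log (2 * (∑ j, lam j * d.2.2.1 j j
          - ∑ j, ∑ j', √(lam j * lam j') * d.2.1 j j' ^ 2) / ∑ j, lam j)
      + Real.log 2 - Real.log (1 + ε) := by
  have hT : 0 < ∑ j, lam j := sum_pos (fun j _ => hlam j) univ_nonempty
  unfold val
  rw [vn_lim lam hlam d hd, vY_lim lam hlam d hd, vX_lim lam hlam d, ht]
  simp_rw [vP_lim lam hlam d hd]
  have h1 : ∀ i, ∑ j, vK lam d i j ^ 2 = lam i := by
    intro i
    simp_rw [vK_lim lam d hd]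
    simp [ite_pow, Real.sq_sqrt (hlam i).le]
  simp_rw [h1]
  have h2 : ∑ i, Real.negMulLog (lam i / ∑ j, lam j)
      = Real.log (∑ j, lam j) - (∑ j, lam j * Real.log (lam j)) / ∑ j, lam j := by
    have h3 : ∀ i, Real.negMulLog (lam i / ∑ j, lam j)
        = lam i / (∑ j, lam j) * Real.log (∑ j, lam j)
          - lam i * Real.log (lam i) / ∑ j, lam j := by
      intro i
      rw [Real.negMulLog, Real.log_div (hlam i).ne' hT.ne']
      ring
    simp_rw [h3, sum_sub_distrib, ← sum_mul, ← sum_div]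
    rw [div_self hT.ne', one_mul]
  rw [h2, add_zero]
  have h4 : 2 / (∑ j, lam j) * (∑ j, lam j * d.2.2.1 j j
          - ∑ j, ∑ j', √(lam j * lam j') * d.2.1 j j' ^ 2)
      = 2 * (∑ j, lam j * d.2.2.1 j j
          - ∑ j, ∑ j', √(lam j * lam j') * d.2.1 j j' ^ 2) / ∑ j, lam j := by ring
  rw [h4]
  have h5 : ∑ a ∈ F₀, (∑ j, lam j * d.2.2.2.1 a j j) / (∑ j, lam j) * Real.log (Λ a)
      = (∑ a ∈ F₀, (∑ j, lam j * d.2.2.2.1 a j j) * Real.log (Λ a)) / ∑ j, lam j := by
    rw [sum_div]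
    exact sum_congr rfl fun a _ => by ring
  rw [h5]
  have h6 : (1 / 2 * Real.log Real.pi * ∑ j, lam j + ∑ j, lam j * d.2.2.1 j j
        - ∑ i ∈ F₀, (∑ j, lam j * d.2.2.2.1 i j j) * Real.log (Λ i)
        + ∑ j, lam j * Real.log (lam j)) / ∑ j, lam j
      = 1 / 2 * Real.log Real.pi + (∑ j, lam j * d.2.2.1 j j) / ∑ j, lam j
        - (∑ i ∈ F₀, (∑ j, lam j * d.2.2.2.1 i j j) * Real.log (Λ i)) / ∑ j, lam j
        + (∑ j, lam j * Real.log (lam j)) / ∑ j, lam j := by
    field_simp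
  rw [h6]
  ring

end val

theorem AT_of (hsite : S_site) (hrs : S_riemann) : S_AT := by
  intro ι J _ _ _ _ b lam Λ X Y hlam hΛ hbc hbd hform h0 h1 h2 hpos F₀ η hη
  classical
  have hT : 0 < ∑ j, lam j := sum_pos (fun j _ => hlam j) univ_nonempty
  -- integrability
  have hdec : ∀ a i j (e : ℕ), e ≤ 2 →
      ∃ C, ∀ x, |x ^ e * (b a i x * b a j x)| ≤ C * Real.exp (-x ^ 2 / 8) :=
    fun a i j e he => dec_mul _ _ (hbd a i) (hbd a j) e he
  have hcont : ∀ a i j (e : ℕ), Continuous fun x => x ^ e * (b a i x * b a j x) :=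
    fun a i j e => (continuous_pow e).mul ((hbc a i).mul (hbc a j))
  have hint : ∀ a i j (e : ℕ), e ≤ 2 → Integrable fun x => x ^ e * (b a i x * b a j x) :=
    fun a i j e he => integrable_of_dec _ (hcont a i j e) (hdec a i j e he)
  -- the second moments
  have hY' : ∀ j, HasSum (fun a => ∫ x, x ^ 2 * (b a j x * b a j x)) (Y j) := by
    intro j
    have h3 : (fun a => ∫ x, x ^ 2 * (b a j x * b a j x)) = fun a => ∫ x, x ^ 2 * b a j x ^ 2 := by
      funext a
      exact integral_congr_ae (Eventually.of_forall fun x => by simp only; ring)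
    rw [h3]
    exact h2 j
  have hS2 : ∀ i j, Summable fun a => ∫ x, x ^ 2 * (b a i x * b a j x) := by
    intro i j
    have hs := ((hY' i).summable.add (hY' j).summable).mul_left (1 / 2)
    refine hs.of_norm_bounded fun a => ?_
    rw [← integral_add (hint a i i 2 le_rfl) (hint a j j 2 le_rfl), ← integral_const_mul]
    refine norm_integral_le_of_norm_le
      (((hint a i i 2 le_rfl).add (hint a j j 2 le_rfl)).const_mul _)
      (Eventually.of_forall fun x => ?_)
    simp only [Real.norm_eq_abs]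
    rw [abs_mul, abs_mul, abs_of_nonneg (sq_nonneg x)]
    have : |b a i x| * |b a j x| ≤ (b a i x * b a i x + b a j x * b a j x) / 2 := by
      nlinarith [sq_nonneg (|b a i x| - |b a j x|), sq_abs (b a i x), sq_abs (b a j x)]
    calc x ^ 2 * (|b a i x| * |b a j x|)
        ≤ x ^ 2 * ((b a i x * b a i x + b a j x * b a j x) / 2) :=
          mul_le_mul_of_nonneg_left this (sq_nonneg x)
      _ = _ := by ring
  -- the data
  set Y2 : J → J → ℝ := fun i j => ∑' a, ∫ x, x ^ 2 * (b a i x * b a j x) with hY2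
  have hY2j : ∀ j, Y2 j j = Y j := fun j => (hY' j).tsum_eq
  set d0 : Dat ι J := (fun i j => if i = j then 1 else 0, X, Y2,
    fun a i j => ∫ x, b a i x * b a j x, 0) with hd0
  set dF : Finset ι → Dat ι J := fun F =>
    (fun i j => ∑ a ∈ F, ∫ x, b a i x * b a j x,
     fun i j => ∑ a ∈ F, ∫ x, x * (b a i x * b a j x),
     fun i j => ∑ a ∈ F, ∫ x, x ^ 2 * (b a i x * b a j x),
     fun a i j => ∫ x, b a i x * b a j x, 0) with hdF
  have hlimF : Tendsto dF atTop (𝓝 d0) := by
    refine Tendsto.prodMk_nhds ?_ (Tendsto.prodMk_nhds ?_ (Tendsto.prodMk_nhds ?_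
      (Tendsto.prodMk_nhds tendsto_const_nhds tendsto_const_nhds)))
    · exact tendsto_pi_nhds.mpr fun i => tendsto_pi_nhds.mpr fun j => h0 i j
    · exact tendsto_pi_nhds.mpr fun i => tendsto_pi_nhds.mpr fun j => h1 i j
    · exact tendsto_pi_nhds.mpr fun i => tendsto_pi_nhds.mpr fun j => (hS2 i j).hasSum
  have hrs' : ∀ a i j (e : ℕ), e ≤ 2 → Tendsto (fun m => rs m fun x => x ^ e * (b a i x * b a j x))
      atTop (𝓝 (∫ x, x ^ e * (b a i x * b a j x))) :=
    fun a i j e he => hrs _ (hcont a i j e) (hdec a i j e he)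
  have hrs0 : ∀ a i j, Tendsto (fun m => rs m fun x => b a i x * b a j x)
      atTop (𝓝 (∫ x, b a i x * b a j x)) := by
    intro a i j
    simpa using hrs' a i j 0 (by norm_num)
  have hrs1 : ∀ a i j, Tendsto (fun m => rs m fun x => x * (b a i x * b a j x))
      atTop (𝓝 (∫ x, x * (b a i x * b a j x))) := by
    intro a i j
    simpa using hrs' a i j 1 (by norm_num)
  have hlimm : ∀ F, Tendsto (fun m => dat b m F) atTop (𝓝 (dF F)) := by
    intro F
    refine Tendsto.prodMk_nhds ?_ (Tendsto.prodMk_nhds ?_ (Tendsto.prodMk_nhds ?_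
      (Tendsto.prodMk_nhds ?_ ?_)))
    · exact tendsto_pi_nhds.mpr fun i => tendsto_pi_nhds.mpr fun j =>
        tendsto_finsetSum _ fun a _ => hrs0 a i j
    · exact tendsto_pi_nhds.mpr fun i => tendsto_pi_nhds.mpr fun j =>
        tendsto_finsetSum _ fun a _ => hrs1 a i j
    · exact tendsto_pi_nhds.mpr fun i => tendsto_pi_nhds.mpr fun j =>
        tendsto_finsetSum _ fun a _ => hrs' a i j 2 le_rfl
    · exact tendsto_pi_nhds.mpr fun a => tendsto_pi_nhds.mpr fun i => tendsto_pi_nhds.mpr fun j =>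
        hrs0 a i j
    · have h3 : Tendsto (fun m : ℕ => (6 * (m : ℝ) ^ 2)) atTop atTop := by
        have : Tendsto (fun m : ℕ => ((m : ℝ)) ^ 2) atTop atTop :=
          (tendsto_pow_atTop two_ne_zero).comp tendsto_natCast_atTop_atTop
        exact this.const_mul_atTop (by norm_num)
      exact h3.inv_tendsto_atTop.congr fun m => by
        simp only [Pi.inv_apply, one_div]
  -- the constants
  set ε : ℝ := η / 2 with hε
  have hε0 : 0 < ε := by positivity
  have hcard : (0 : ℝ) < Fintype.card J := by exact_mod_cast Fintype.card_pos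
  obtain ⟨e, he0, he⟩ : ∃ e : ℝ, 0 < e ∧ ∀ j, Fintype.card J * e < √(lam j) ∧
      Fintype.card J * e ≤ ε * √(lam j) := by
    obtain ⟨j0, -, hj0⟩ := exists_min_image (univ : Finset J) (fun j => √(lam j)) univ_nonempty
    have hj0' := Real.sqrt_pos.mpr (hlam j0)
    refine ⟨min (1 / 2) ε * √(lam j0) / Fintype.card J, by positivity, fun j => ?_⟩
    have h3 : (Fintype.card J : ℝ) * (min (1 / 2) ε * √(lam j0) / Fintype.card J)
        = min (1 / 2) ε * √(lam j0) := by field_simp
    rw [h3]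
    have h4 := hj0 j (mem_univ j)
    constructor
    · have h5 : min (1 / 2) ε * √(lam j0) ≤ 1 / 2 * √(lam j0) :=
        mul_le_mul_of_nonneg_right (min_le_left _ _) hj0'.le
      linarith
    · exact mul_le_mul (min_le_right _ _) h4 hj0'.le hε0.le
  -- the good data
  have hd1 : ∀ i j, d0.1 i j = if i = j then 1 else 0 := fun i j => rfl
  have hval := val_lim lam hlam Λ F₀ ε d0 hd1 rfl
  have hgood : ∀ᶠ d in 𝓝 d0, (∀ i j, |vK lam d i j - if i = j then √(lam i) else 0| ≤ e) ∧
      0 < vn lam d ∧ val lam Λ F₀ ε d0 - η / 4 < val lam Λ F₀ ε d := by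
    refine Eventually.and ?_ (Eventually.and ?_ ?_)
    · refine eventually_all.mpr fun i => eventually_all.mpr fun j => ?_
      have h3 : Tendsto (fun d => vK lam d i j) (𝓝 d0) (𝓝 (if i = j then √(lam i) else 0)) := by
        rw [← vK_lim lam d0 hd1 i j]
        exact (cont_vK lam i j).continuousAt
      have h4 := Metric.tendsto_nhds.mp h3 e he0
      filter_upwards [h4] with d hd
      rw [Real.dist_eq] at hd
      exact hd.le
    · have h3 : Tendsto (fun d => vn lam d) (𝓝 d0) (𝓝 (∑ j, lam j)) := by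
        rw [← vn_lim lam hlam d0 hd1]
        exact (cont_vn lam).continuousAt
      exact h3.eventually_const_lt hT
    · have h3 : ContinuousAt (fun d => val lam Λ F₀ ε d) d0 := by
        refine contAt_val lam Λ F₀ ε d0 ?_ ?_
        · rw [vn_lim lam hlam d0 hd1]; exact hT.ne'
        · rw [vn_lim lam hlam d0 hd1, vY_lim lam hlam d0 hd1, vX_lim lam hlam d0]
          have h4 : 0 < ∑ j, lam j * d0.2.2.1 j j
              - ∑ i, ∑ j, √(lam i * lam j) * d0.2.1 i j ^ 2 := by
            simp only [hd0, hY2j]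
            exact hpos
          have h5 : d0.2.2.2.2 = 0 := rfl
          rw [h5, add_zero]
          positivity
      exact h3.eventually_const_lt (by linarith)
  -- choice of `F`
  have hι : Nonempty ι := by
    by_contra hne
    rw [not_nonempty_iff] at hne
    obtain ⟨j⟩ := (inferInstance : Nonempty J)
    have h3 := h0 j j
    rw [if_pos rfl] at h3
    have h4 := h3.unique (hasSum_empty)
    exact one_ne_zero h4
  obtain ⟨i0⟩ := hι
  have hFe : ∀ᶠ F in atTop, (∀ᶠ d in 𝓝 (dF F),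
      ((∀ i j, |vK lam d i j - if i = j then √(lam i) else 0| ≤ e) ∧
      0 < vn lam d ∧ val lam Λ F₀ ε d0 - η / 4 < val lam Λ F₀ ε d)) ∧ insert i0 F₀ ≤ F :=
    (hlimF.eventually (eventually_eventually_nhds.mpr hgood)).and (eventually_ge_atTop _)
  obtain ⟨F, hF1, hF2⟩ := hFe.exists
  have hF0 : F₀ ⊆ F := (subset_insert i0 F₀).trans hF2
  have hFi : i0 ∈ F := hF2 (mem_insert_self i0 F₀)
  obtain ⟨m, ⟨hm1, hm2, hm3⟩, hm4⟩ := (((hlimm F).eventually hF1).and
    (eventually_ge_atTop (Fintype.card J + 1))).exists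
  have hm0 : 0 < m := by omega
  have hmJ : Fintype.card J ≤ (2 * m ^ 2 + 1) * F.card := by
    have h3 : 1 ≤ F.card := card_pos.mpr ⟨i0, hFi⟩
    have h4 : m ≤ m ^ 2 := Nat.le_self_pow two_ne_zero m
    calc Fintype.card J ≤ 2 * m ^ 2 + 1 := by omega
      _ = (2 * m ^ 2 + 1) * 1 := by ring
      _ ≤ _ := Nat.mul_le_mul_left _ h3
  obtain ⟨s, hs⟩ := site_of_dat hsite b lam Λ hlam hΛ hform F₀ F hF0 m hm0 hmJ ε e hε0 he hm1 hm2
  refine ⟨_, inferInstance, inferInstance, _, s, lt_of_lt_of_le ?_ hs⟩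
  refine lt_trans ?_ hm3
  rw [hval]
  have h3 : Real.log (1 + ε) ≤ ε := by
    have := Real.log_le_sub_one_of_pos (show (0 : ℝ) < 1 + ε by linarith)
    linarith
  have h4 : ∀ i j, d0.2.2.2.1 i j j = ∫ x, b i j x ^ 2 := by
    intro i j
    simp only [hd0]
    exact integral_congr_ae (Eventually.of_forall fun x => by simp only; ring)
  have h5 : ∀ j, d0.2.2.1 j j = Y j := hY2j
  simp_rw [h4, h5]
  have h6 : d0.2.1 = X := rfl
  rw [h6]
  linarith

end Pool.Agent.W259.GP
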