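import Pool.Agent.H785R2.LP.Refine

/-!
# Gaussian chain states for the noncommutative linear programming bound

Definitions and statements. Every `S_...` is a `Prop` that has been or will be proved in another
module of this folder.
-/

open MeasureTheory Finset Filter
open scoped Topology

namespace Pool.Agent.W259.GP

open Pool.Agent.H390R2.LP Pool.Agent.H785R2.LP

/-! ### One mode -/

/-- ratio of the geometric spectrum of the kernel `kc c` -/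
noncomputable def rr (c : ℝ) : ℝ := (√(1 + 2 * c) - 1) / (√(1 + 2 * c) + 1)

/-- the one dimensional Gaussian kernel -/
noncomputable def kc (c x y : ℝ) : ℝ :=
  (√Real.pi)⁻¹ * Real.exp (-(x ^ 2 + y ^ 2) / 2 - c * (x - y) ^ 2 / 2)

/-- `ψ` is the sequence of the normalised eigenfunctions of the kernel `kc c` (scaled Hermite
functions) -/
structure Eig (c : ℝ) (ψ : ℕ → ℝ → ℝ) : Prop where
  cont : ∀ k, Continuous (ψ k)
  bound : ∀ k, ∃ C, ∀ x, |ψ k x| ≤ C * Real.exp (-x ^ 2 / 4)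
  orth : ∀ k l, ∫ x, ψ k x * ψ l x = if k = l then 1 else 0
  mom1 : ∀ k l, ∫ x, x * (ψ k x * ψ l x) =
    if l = k + 1 then √(((k : ℝ) + 1) / (2 * √(1 + 2 * c)))
    else if k = l + 1 then √(((l : ℝ) + 1) / (2 * √(1 + 2 * c))) else 0
  mom2 : ∀ k, ∫ x, x ^ 2 * ψ k x ^ 2 = (2 * (k : ℝ) + 1) / (2 * √(1 + 2 * c))
  mehler : ∀ x y, HasSum (fun k => (1 - rr c) * rr c ^ k * (ψ k x * ψ k y)) (kc c x y)

/-- entropy of the geometric distribution with ratio `rr c` -/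
noncomputable def gH (c : ℝ) : ℝ :=
  -Real.log (1 - rr c) - rr c / (1 - rr c) * Real.log (rr c)

/-- energy of one mode -/
noncomputable def eC (c : ℝ) : ℝ := 1 - √(2 * c / (1 + 2 * c))

/-- the normalised Hermite functions `h_k(x) = He_k(√2 x) e^{-x²/2} / √(k! √π)`, where `He_k` are
the (probabilists') Hermite polynomials of Mathlib -/
noncomputable def hf (k : ℕ) (x : ℝ) : ℝ :=
  (√((k.factorial : ℝ) * √Real.pi))⁻¹ *
    Polynomial.aeval (√2 * x) (Polynomial.hermite k) * Real.exp (-x ^ 2 / 2)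

/-- **GP-H1.** orthonormality and position matrix elements of the Hermite functions -/
def S_hf : Prop :=
  (∀ k, Continuous (hf k)) ∧ (∀ k, ∃ C, ∀ x, |hf k x| ≤ C * Real.exp (-x ^ 2 / 4)) ∧
  (∀ k l, ∫ x, hf k x * hf l x = if k = l then 1 else 0) ∧
  (∀ k l, ∫ x, x * (hf k x * hf l x) = if l = k + 1 then √(((k : ℝ) + 1) / 2)
    else if k = l + 1 then √(((l : ℝ) + 1) / 2) else 0) ∧
  (∀ k, ∫ x, x ^ 2 * hf k x ^ 2 = (2 * (k : ℝ) + 1) / 2)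

/-- **GP-H2.** Mehler's formula -/
def S_mehler : Prop := ∀ r : ℝ, 0 ≤ r → r < 1 → ∀ x y : ℝ,
  HasSum (fun k => r ^ k * (hf k x * hf k y))
    ((√(Real.pi * (1 - r ^ 2)))⁻¹ *
      Real.exp ((4 * r * x * y - (1 + r ^ 2) * (x ^ 2 + y ^ 2)) / (2 * (1 - r ^ 2))))

/-- **GP-H3** (from GP-H1 and GP-H2 by scaling). -/
def S_eig : Prop := ∀ c : ℝ, 0 < c → ∃ ψ : ℕ → ℝ → ℝ, Eig c ψ

/-! ### Several modes -/

/-- orthogonal square matrices -/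
def IsOrth {m : ℕ} (O : Fin m → Fin m → ℝ) : Prop :=
  ∀ j l, ∑ i, O j i * O l i = if j = l then 1 else 0

/-- rotated coordinates -/
def rot {m : ℕ} (O : Fin m → Fin m → ℝ) (x : Fin m → ℝ) (j : Fin m) : ℝ := ∑ i, O j i * x i

/-- products of one-mode eigenfunctions in the rotated coordinates -/
noncomputable def chi {m : ℕ} (O : Fin m → Fin m → ℝ) (ψ : Fin m → ℕ → ℝ → ℝ) (κ : Fin m → ℕ)
    (x : Fin m → ℝ) : ℝ := ∏ j, ψ j (κ j) (rot O x j)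

/-- eigenvalues -/
noncomputable def Lam {m : ℕ} (c : Fin m → ℝ) (κ : Fin m → ℕ) : ℝ :=
  ∏ j, ((1 - rr (c j)) * rr (c j) ^ κ j)

/-- the matrix `Oᵀ diag(c) O` -/
def QM {m : ℕ} (O : Fin m → Fin m → ℝ) (c : Fin m → ℝ) (i l : Fin m) : ℝ :=
  ∑ j, O j i * c j * O j l

/-- the Gaussian kernel with matrix `Q` -/
noncomputable def KN {m : ℕ} (Q : Fin m → Fin m → ℝ) (x y : Fin m → ℝ) : ℝ :=
  (√Real.pi)⁻¹ ^ m * Real.exp (-(∑ i, (x i ^ 2 + y i ^ 2)) / 2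
    - (∑ i, ∑ j, (x i - y i) * Q i j * (x j - y j)) / 2)

/-- facts about the eigenfunctions of the kernel `KN (QM O c)` -/
structure MEig {m : ℕ} (O : Fin m → Fin m → ℝ) (c : Fin m → ℝ)
    (χ : (Fin m → ℕ) → (Fin m → ℝ) → ℝ) : Prop where
  cont : ∀ κ, Continuous (χ κ)
  bound : ∀ κ, ∃ C, ∀ x, |χ κ x| ≤ C * Real.exp (-(∑ i, x i ^ 2) / 4)
  orth : ∀ κ κ', ∫ x, χ κ x * χ κ' x = if κ = κ' then 1 else 0
  mehler : ∀ x y, HasSum (fun κ => Lam c κ * (χ κ x * χ κ y)) (KN (QM O c) x y)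

/-- **GP-M1.** -/
def S_modes1 : Prop := ∀ (m : ℕ) (O : Fin m → Fin m → ℝ) (c : Fin m → ℝ)
    (ψ : Fin m → ℕ → ℝ → ℝ), IsOrth O → (∀ j, 0 < c j) → (∀ j, Eig (c j) (ψ j)) →
    (∀ κ, Continuous (chi O ψ κ)) ∧
    (∀ κ, ∃ C, ∀ x, |chi O ψ κ x| ≤ C * Real.exp (-(∑ i, x i ^ 2) / 4)) ∧
    (∀ κ κ', ∫ x, chi O ψ κ x * chi O ψ κ' x = if κ = κ' then 1 else 0)

/-- **GP-M2.** -/
def S_modes2 : Prop := ∀ (m : ℕ) (O : Fin m → Fin m → ℝ) (c : Fin m → ℝ)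
    (ψ : Fin m → ℕ → ℝ → ℝ), IsOrth O → (∀ j, 0 < c j) → (∀ j, Eig (c j) (ψ j)) →
    ∀ x y, HasSum (fun κ => Lam c κ * (chi O ψ κ x * chi O ψ κ y)) (KN (QM O c) x y)

theorem modes (h1 : S_modes1) (h2 : S_modes2) (m : ℕ) (O : Fin m → Fin m → ℝ) (c : Fin m → ℝ)
    (ψ : Fin m → ℕ → ℝ → ℝ) (hO : IsOrth O) (hc : ∀ j, 0 < c j) (hψ : ∀ j, Eig (c j) (ψ j)) :
    MEig O c (chi O ψ) :=
  ⟨(h1 m O c ψ hO hc hψ).1, (h1 m O c ψ hO hc hψ).2.1, (h1 m O c ψ hO hc hψ).2.2,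
    h2 m O c ψ hO hc hψ⟩

/-- finite boxes of indices -/
def box (m K : ℕ) : Finset (Fin m → ℕ) := Fintype.piFinset fun _ => range K

/-- the first moment matrix in the coordinate `i` -/
noncomputable def mX {m : ℕ} (χ : (Fin m → ℕ) → (Fin m → ℝ) → ℝ) (i : Fin m)
    (κ κ' : Fin m → ℕ) : ℝ := ∫ x, x i * (χ κ x * χ κ' x)

/-- the second moments in the coordinate `i` -/
noncomputable def mY {m : ℕ} (χ : (Fin m → ℕ) → (Fin m → ℝ) → ℝ) (i : Fin m)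
    (κ : Fin m → ℕ) : ℝ := ∫ x, x i ^ 2 * χ κ x ^ 2

/-- first moments of one mode -/
noncomputable def m1 (c : ℝ) (k l : ℕ) : ℝ :=
  if l = k + 1 then √(((k : ℝ) + 1) / (2 * √(1 + 2 * c)))
  else if k = l + 1 then √(((l : ℝ) + 1) / (2 * √(1 + 2 * c))) else 0

/-- **GP-MXY.** the moment matrices in terms of the modes -/
def S_mXY : Prop := ∀ (m : ℕ) (O : Fin m → Fin m → ℝ) (c : Fin m → ℝ)
    (ψ : Fin m → ℕ → ℝ → ℝ) (i : Fin m), IsOrth O → (∀ j, 0 < c j) → (∀ j, Eig (c j) (ψ j)) →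
    (∀ κ, mY (chi O ψ) i κ =
      ∑ j, O j i ^ 2 * ((2 * (κ j : ℝ) + 1) / (2 * √(1 + 2 * c j)))) ∧
    (∀ κ κ', mX (chi O ψ) i κ κ' =
      ∑ j, O j i * if ∀ l, l ≠ j → κ l = κ' l then m1 (c j) (κ j) (κ' j) else 0)

/-- **GP-MOM1** (from GP-MXY). second moments -/
def S_mom2 : Prop := ∀ (m : ℕ) (O : Fin m → Fin m → ℝ) (c : Fin m → ℝ)
    (ψ : Fin m → ℕ → ℝ → ℝ) (i : Fin m), IsOrth O → (∀ j, 0 < c j) → (∀ j, Eig (c j) (ψ j)) →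
    Tendsto (fun K => ∑ κ ∈ box m K, Lam c κ * mY (chi O ψ) i κ) atTop (𝓝 (1 / 2))

/-- **GP-MOM2** (from GP-MXY). energies -/
def S_energy : Prop := ∀ (m : ℕ) (O : Fin m → Fin m → ℝ) (c : Fin m → ℝ)
    (ψ : Fin m → ℕ → ℝ → ℝ) (i : Fin m), IsOrth O → (∀ j, 0 < c j) → (∀ j, Eig (c j) (ψ j)) →
    Tendsto (fun K => 2 * (∑ κ ∈ box m K, Lam c κ * mY (chi O ψ) i κ
      - ∑ κ ∈ box m K, ∑ κ' ∈ box m K, √(Lam c κ * Lam c κ') * mX (chi O ψ) i κ κ' ^ 2))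
      atTop (𝓝 (∑ j, O j i ^ 2 * eC (c j)))

/-- **GP-ENT.** entropies of products of geometric distributions -/
def S_entropy : Prop := ∀ (m : ℕ) (c : Fin m → ℝ), (∀ j, 0 < c j) →
    (∀ κ, 0 < Lam c κ ∧ Lam c κ ≤ 1) ∧
    Tendsto (fun K => ∑ κ ∈ box m K, Lam c κ) atTop (𝓝 1) ∧
    Tendsto (fun K => ∑ κ ∈ box m K, Lam c κ * Real.log (Lam c κ)) atTop (𝓝 (-∑ j, gH (c j)))

/-! ### Slices -/

/-- density of the position in the measured mode -/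
noncomputable def pp (x : ℝ) : ℝ := (√Real.pi)⁻¹ * Real.exp (-x ^ 2)

/-- coefficients of the slices `χ κ (x, ·)` in the basis `χ' κ'` -/
noncomputable def bb {n : ℕ} (χ' : (Fin n → ℕ) → (Fin n → ℝ) → ℝ)
    (χ : (Fin (n + 1) → ℕ) → (Fin (n + 1) → ℝ) → ℝ) (κ' : Fin n → ℕ) (κ : Fin (n + 1) → ℕ)
    (x : ℝ) : ℝ := ∫ y : Fin n → ℝ, χ' κ' y * χ κ (Fin.cons x y)

/-- hypotheses about two systems of modes, the second being the restriction of the first one -/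
structure Pair {n : ℕ} (O : Fin (n + 1) → Fin (n + 1) → ℝ) (c : Fin (n + 1) → ℝ)
    (χ : (Fin (n + 1) → ℕ) → (Fin (n + 1) → ℝ) → ℝ) (O' : Fin n → Fin n → ℝ) (c' : Fin n → ℝ)
    (χ' : (Fin n → ℕ) → (Fin n → ℝ) → ℝ) : Prop where
  h : MEig O c χ
  h' : MEig O' c' χ'
  pos : ∀ j, 0 < c j
  pos' : ∀ j, 0 < c' j
  eq : ∀ i l : Fin n, QM O c i.succ l.succ = QM O' c' i l

/-- **GP-SL1.** continuity and decay of the coefficients -/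
def S_sl1 : Prop := ∀ (n : ℕ) (O : Fin (n + 1) → Fin (n + 1) → ℝ) (c : Fin (n + 1) → ℝ)
    (χ : (Fin (n + 1) → ℕ) → (Fin (n + 1) → ℝ) → ℝ) (O' : Fin n → Fin n → ℝ) (c' : Fin n → ℝ)
    (χ' : (Fin n → ℕ) → (Fin n → ℝ) → ℝ), Pair O c χ O' c' χ' → ∀ κ' κ,
    Continuous (bb χ' χ κ' κ) ∧ ∃ C, ∀ x, |bb χ' χ κ' κ x| ≤ C * Real.exp (-x ^ 2 / 4)

/-- **GP-SL2.** the dephased state is a product -/
def S_sl2 : Prop := ∀ (n : ℕ) (O : Fin (n + 1) → Fin (n + 1) → ℝ) (c : Fin (n + 1) → ℝ)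
    (χ : (Fin (n + 1) → ℕ) → (Fin (n + 1) → ℝ) → ℝ) (O' : Fin n → Fin n → ℝ) (c' : Fin n → ℝ)
    (χ' : (Fin n → ℕ) → (Fin n → ℝ) → ℝ), Pair O c χ O' c' χ' →
    ∀ (x : ℝ) (F : Finset (Fin n → ℕ)) (v : (Fin n → ℕ) → ℝ),
    HasSum (fun κ => Lam c κ * (∑ κ' ∈ F, v κ' * bb χ' χ κ' κ x) ^ 2)
      (pp x * ∑ κ' ∈ F, Lam c' κ' * v κ' ^ 2)

/-- **GP-SL3.** Parseval for the slices, integrated against `1`, `x`, `x²` -/
def S_sl3 : Prop := ∀ (n : ℕ) (O : Fin (n + 1) → Fin (n + 1) → ℝ) (c : Fin (n + 1) → ℝ)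
    (χ : (Fin (n + 1) → ℕ) → (Fin (n + 1) → ℝ) → ℝ) (O' : Fin n → Fin n → ℝ) (c' : Fin n → ℝ)
    (χ' : (Fin n → ℕ) → (Fin n → ℝ) → ℝ), Pair O c χ O' c' χ' → ∀ (e : ℕ) (κ κ₁ : Fin (n + 1) → ℕ),
    HasSum (fun κ' => ∫ x, x ^ e * (bb χ' χ κ' κ x * bb χ' χ κ' κ₁ x))
      (∫ z : Fin (n + 1) → ℝ, z 0 ^ e * (χ κ z * χ κ₁ z))

/-! ### From functions on the line to finite one-site states -/

/-- **GP-SITE.** one-site data from a factorisation `T = B Bᵀ` -/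
def S_site : Prop := ∀ (N : ℕ) (F J : Type) [Fintype F] [DecidableEq F] [Fintype J]
    [DecidableEq J] (B : Fin N → F → J → ℝ) (K : J → J → ℝ) (D : Fin N → F → ℝ) (n : ℝ),
    Fintype.card J ≤ N * Fintype.card F →
    (∀ i j, K i j = ∑ x, ∑ a, B x a i * B x a j) →
    (∀ c : J → ℝ, (∀ i, ∑ j, K i j * c j = 0) → c = 0) →
    n = ∑ i, ∑ j, K i j ^ 2 → 0 < n → (∀ x a, 0 < D x a) →
    (∀ x (v : F → ℝ), ∑ i, ∑ j, (∑ a, v a * B x a i) * K i j * (∑ a, v a * B x a j)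
      ≤ n * ∑ a, D x a * v a ^ 2) →
    ∃ s : Site (Fin N × F) (Fin N),
      s.S ≤ ∑ i, Real.negMulLog ((∑ j, K i j ^ 2) / n) ∧
      -(∑ x, ∑ a, (∑ i, ∑ j, B x a i * K i j * B x a j) / n * Real.log (D x a)) ≤ s.h ∧
      ∀ f : Fin N → ℝ, s.E (fun (_ : Unit) x => f x) =
        2 / n * (∑ x, (∑ a, ∑ i, ∑ j, B x a i * K i j * B x a j) * f x ^ 2
          - ∑ i, ∑ j, (∑ x, f x * ∑ a, B x a i * B x a j) ^ 2)

/-- **GP-RS.** Riemann sums on the whole line -/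
def S_riemann : Prop := ∀ f : ℝ → ℝ, Continuous f →
    (∃ C, ∀ x, |f x| ≤ C * Real.exp (-x ^ 2 / 8)) →
    Tendsto (fun m : ℕ => (1 / (m : ℝ)) * ∑ j : Fin (2 * m ^ 2 + 1),
      f (((j : ℝ) - (m : ℝ) ^ 2) / m)) atTop (𝓝 (∫ x, f x))

/-- **GP-AT.** Discretisation. -/
def S_AT : Prop := ∀ (ι J : Type) [DecidableEq ι] [Fintype J] [DecidableEq J] [Nonempty J]
    (b : ι → J → ℝ → ℝ) (lam : J → ℝ) (Λ : ι → ℝ) (X : J → J → ℝ) (Y : J → ℝ),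
    (∀ j, 0 < lam j) → (∀ i, 0 < Λ i ∧ Λ i ≤ 1) →
    (∀ i j, Continuous (b i j)) → (∀ i j, ∃ C, ∀ x, |b i j x| ≤ C * Real.exp (-x ^ 2 / 4)) →
    (∀ x (F : Finset ι) (v : ι → ℝ), ∑ j, lam j * (∑ i ∈ F, v i * b i j x) ^ 2
      ≤ pp x * ∑ i ∈ F, Λ i * v i ^ 2) →
    (∀ j j', HasSum (fun i => ∫ x, b i j x * b i j' x) (if j = j' then 1 else 0)) →
    (∀ j j', HasSum (fun i => ∫ x, x * (b i j x * b i j' x)) (X j j')) →
    (∀ j, HasSum (fun i => ∫ x, x ^ 2 * b i j x ^ 2) (Y j)) →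
    0 < ∑ j, lam j * Y j - ∑ j, ∑ j', √(lam j * lam j') * X j j' ^ 2 →
    ∀ (F₀ : Finset ι) (η : ℝ), 0 < η →
    ∃ (Ω : Type) (_ : Fintype Ω) (_ : DecidableEq Ω) (q : ℕ) (s : Site Ω (Fin q)),
      (1 / 2 * Real.log Real.pi * ∑ j, lam j + ∑ j, lam j * Y j
        - ∑ i ∈ F₀, (∑ j, lam j * ∫ x, b i j x ^ 2) * Real.log (Λ i)
        + ∑ j, lam j * Real.log (lam j)) / ∑ j, lam j
      - 1 / 2 * Real.log (2 * Real.pi * Real.exp 1)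
      - 1 / 2 * Real.log (2 * (∑ j, lam j * Y j
          - ∑ j, ∑ j', √(lam j * lam j') * X j j' ^ 2) / ∑ j, lam j)
      + Real.log 2 - η < cstar s

/-- **GP-GAUSS.** the value of a Gaussian state with one measured mode -/
def S_gauss : Prop := ∀ (n : ℕ) (O : Fin (n + 1) → Fin (n + 1) → ℝ) (c : Fin (n + 1) → ℝ)
    (O' : Fin n → Fin n → ℝ) (c' : Fin n → ℝ), IsOrth O → IsOrth O' → (∀ j, 0 < c j) →
    (∀ j, 0 < c' j) → (∀ i l : Fin n, QM O c i.succ l.succ = QM O' c' i l) →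
    ∀ η : ℝ, 0 < η →
    ∃ (Ω : Type) (_ : Fintype Ω) (_ : DecidableEq Ω) (q : ℕ) (s : Site Ω (Fin q)),
      1 / 2 * Real.log 2 - ∑ j, gH (c j) + ∑ j, gH (c' j)
        - 1 / 2 * Real.log (∑ j, O j 0 ^ 2 * eC (c j)) - η < cstar s

/-! ### The chain -/

/-- parameters of the chain with `n + 1` sites -/
noncomputable def cA (c : ℝ) (n : ℕ) (j : Fin (n + 1)) : ℝ :=
  c * (2 - 2 * Real.cos (Real.pi * (2 * (j : ℝ) + 1) / (2 * ((n : ℝ) + 1))))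

/-- parameters of the chain without the measured site -/
noncomputable def cB (c : ℝ) (n : ℕ) (j : Fin n) : ℝ :=
  c * (2 - 2 * Real.cos (Real.pi * ((j : ℝ) + 1) / ((n : ℝ) + 1)))

/-- **GP-CHAIN.** -/
def S_chain : Prop := ∀ n : ℕ, ∃ (O : Fin (n + 1) → Fin (n + 1) → ℝ) (O' : Fin n → Fin n → ℝ),
    IsOrth O ∧ IsOrth O' ∧ (∀ j, O j 0 ^ 2 = 1 / ((n : ℝ) + 1)) ∧
    ∀ c : ℝ, ∀ i l : Fin n, QM O (cA c n) i.succ l.succ = QM O' (cB c n) i l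

/-- **GP-SUM.** the difference of the entropies along the chain -/
def S_sum : Prop := ∀ c : ℝ, 0 < c →
    Tendsto (fun n : ℕ => ∑ j, gH (cA c n j) - ∑ j, gH (cB c n j)) atTop (𝓝 (1 / 2 * gH (4 * c)))

/-- **GP-AVG.** the energy along the chain -/
def S_avg : Prop := ∀ c : ℝ, 0 < c →
    Tendsto (fun n : ℕ => ∑ j, 1 / ((n : ℝ) + 1) * eC (cA c n j)) atTop
      (𝓝 (2 / Real.pi * Real.arctan (1 / √(8 * c))))

/-- **GP-TOP.** the limit of strong coupling -/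
def S_top : Prop := ∀ η : ℝ, 0 < η → ∃ c : ℝ, 0 < c ∧
    1 / 2 * Real.log (2 * Real.pi / Real.exp 1) - η <
      1 / 2 * Real.log 2 - 1 / 2 * gH (4 * c)
        - 1 / 2 * Real.log (2 / Real.pi * Real.arctan (1 / √(8 * c)))

/-- **Main statement**: one-site states with packing exponent arbitrarily close to
`(1 / 2) log (2 π / e)`. -/
def S_main : Prop := ∀ η : ℝ, 0 < η →
    ∃ (Ω : Type) (_ : Fintype Ω) (_ : DecidableEq Ω) (q : ℕ) (s : Site Ω (Fin q)),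
      1 / 2 * Real.log (2 * Real.pi / Real.exp 1) - η < cstar s

end Pool.Agent.W259.GP
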