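import Pool.Agent.W259.GP.Defs

/-!
The value of a Gaussian state with one measured mode, from the discretisation theorem.
-/

open MeasureTheory Finset Filter
open scoped Topology

namespace Pool.Agent.W259.GP

open Pool.Agent.H390R2.LP Pool.Agent.H785R2.LP

theorem tendsto_box (m : ℕ) : Tendsto (box m) atTop atTop := by
  refine tendsto_atTop_finset_of_monotone ?_ ?_
  · intro K L hKL
    unfold box
    exact Fintype.piFinset_subset _ _ fun _ => range_mono hKL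
  · intro κ
    refine ⟨(∑ j, κ j) + 1, ?_⟩
    unfold box
    rw [Fintype.mem_piFinset]
    intro j
    rw [mem_range]
    have : κ j ≤ ∑ j, κ j := single_le_sum (f := fun j => κ j) (fun i _ => Nat.zero_le _) (mem_univ j)
    omega

theorem integral_pp : ∫ x, pp x = 1 := by
  unfold pp
  rw [integral_const_mul]
  have h := integral_gaussian 1
  rw [div_one] at h
  have h2 : ∫ x : ℝ, Real.exp (-x ^ 2) = √Real.pi := by
    rw [← h]
    exact integral_congr_ae (Eventually.of_forall fun x => by simp only; ring_nf)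
  rw [h2, inv_mul_cancel₀ (Real.sqrt_pos.mpr Real.pi_pos).ne']

theorem integrable_pp : Integrable pp := by
  have h : ¬ (∫ x, pp x = 0) := by rw [integral_pp]; exact one_ne_zero
  by_contra hc
  exact h (integral_undef hc)

theorem col_norm {m : ℕ} (O : Fin m → Fin m → ℝ) (hO : IsOrth O) (i : Fin m) :
    ∑ j, O j i ^ 2 = 1 := by
  have h1 : (Matrix.of O) * (Matrix.of O).transpose = 1 := by
    ext a b
    rw [Matrix.mul_apply, Matrix.one_apply, ← hO a b]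
    rfl
  have h2 : (Matrix.of O).transpose * (Matrix.of O) = 1 := mul_eq_one_comm.mp h1
  have := congrFun (congrFun h2 i) i
  rw [Matrix.mul_apply, Matrix.one_apply, if_pos rfl] at this
  rw [← this]
  exact sum_congr rfl fun j _ => by simp [sq]

theorem eC_pos {c : ℝ} (hc : 0 < c) : 0 < eC c := by
  unfold eC
  have h1 : √(2 * c / (1 + 2 * c)) < 1 := by
    rw [Real.sqrt_lt' one_pos, one_pow, div_lt_one (by positivity)]
    linarith
  linarith

theorem energy_pos {m : ℕ} (O : Fin m → Fin m → ℝ) (hO : IsOrth O) (c : Fin m → ℝ)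
    (hc : ∀ j, 0 < c j) (i : Fin m) : 0 < ∑ j, O j i ^ 2 * eC (c j) := by
  have h1 := col_norm O hO i
  have h2 : ∃ j ∈ (univ : Finset (Fin m)), 0 < O j i ^ 2 := by
    by_contra hne
    push Not at hne
    have : ∑ j, O j i ^ 2 ≤ 0 := sum_nonpos fun j hj => hne j hj
    linarith
  obtain ⟨j, hj, hj2⟩ := h2
  refine sum_pos' (fun j _ => mul_nonneg (sq_nonneg _) (eC_pos (hc j)).le) ⟨j, hj, ?_⟩
  exact mul_pos hj2 (eC_pos (hc j))

section

variable {n : ℕ} {O : Fin (n + 1) → Fin (n + 1) → ℝ} {c : Fin (n + 1) → ℝ}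
    {χ : (Fin (n + 1) → ℕ) → (Fin (n + 1) → ℝ) → ℝ} {O' : Fin n → Fin n → ℝ} {c' : Fin n → ℝ}
    {χ' : (Fin n → ℕ) → (Fin n → ℝ) → ℝ}

theorem hasSum_bb (hent : S_entropy) (hs1 : S_sl1) (hs2 : S_sl2) (hP : Pair O c χ O' c' χ')
    (κ' : Fin n → ℕ) :
    HasSum (fun κ => Lam c κ * ∫ x, bb χ' χ κ' κ x ^ 2) (Lam c' κ') := by
  have hl : ∀ κ, 0 < Lam c κ := fun κ => ((hent _ c hP.pos).1 κ).1
  have hpt : ∀ x, HasSum (fun κ => Lam c κ * bb χ' χ κ' κ x ^ 2) (pp x * Lam c' κ') := by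
    intro x
    have := hs2 n O c χ O' c' χ' hP x {κ'} (fun _ => 1)
    simpa using this
  have hcont : ∀ κ, Continuous (bb χ' χ κ' κ) := fun κ => (hs1 n O c χ O' c' χ' hP κ' κ).1
  have hl' : 0 < Lam c' κ' := ((hent _ c' hP.pos').1 κ').1
  have hint : ∀ κ, Integrable fun x => Lam c κ * bb χ' χ κ' κ x ^ 2 := by
    intro κ
    refine (integrable_pp.mul_const (Lam c' κ')).mono'
      (((hcont κ).pow 2).const_mul _).aestronglyMeasurable (Eventually.of_forall fun x => ?_)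
    have h1 : 0 ≤ Lam c κ * bb χ' χ κ' κ x ^ 2 := mul_nonneg (hl κ).le (sq_nonneg _)
    rw [Real.norm_of_nonneg h1]
    exact le_hasSum (hpt x) κ fun κ₂ _ => mul_nonneg (hl κ₂).le (sq_nonneg _)
  have hsumm : Summable fun κ => ∫ x, ‖Lam c κ * bb χ' χ κ' κ x ^ 2‖ := by
    refine summable_of_sum_le (c := ∫ x, pp x * Lam c' κ')
      (fun κ => integral_nonneg fun x => norm_nonneg _) fun u => ?_
    rw [← integral_finsetSum _ fun κ _ => (hint κ).norm]
    refine integral_mono (integrable_finsetSum _ fun κ _ => (hint κ).norm)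
      (integrable_pp.mul_const _) fun x => ?_
    have h1 : ∀ κ, ‖Lam c κ * bb χ' χ κ' κ x ^ 2‖ = Lam c κ * bb χ' χ κ' κ x ^ 2 := fun κ =>
      Real.norm_of_nonneg (mul_nonneg (hl κ).le (sq_nonneg _))
    simp only [h1]
    exact sum_le_hasSum _ (fun κ₂ _ => mul_nonneg (hl κ₂).le (sq_nonneg _)) (hpt x)
  have h := hasSum_integral_of_summable_integral_norm hint hsumm
  have h2 : ∀ x, ∑' κ, Lam c κ * bb χ' χ κ' κ x ^ 2 = pp x * Lam c' κ' :=
    fun x => (hpt x).tsum_eq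
  simp only [h2] at h
  rw [integral_mul_const, integral_pp, one_mul] at h
  have h3 : (fun κ => Lam c κ * ∫ x, bb χ' χ κ' κ x ^ 2)
      = fun κ => ∫ x, Lam c κ * bb χ' χ κ' κ x ^ 2 := by
    funext κ
    rw [integral_const_mul]
  rw [h3]
  exact h

/-- the value before the limit, as a function of the data -/
noncomputable def gval (T M R L E : ℝ) : ℝ :=
  (1 / 2 * Real.log Real.pi * T + M - R + L) / T
      - 1 / 2 * Real.log (2 * Real.pi * Real.exp 1)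
      - 1 / 2 * Real.log (E / T) + Real.log 2

theorem gauss_step (hAT : S_AT) (hent : S_entropy) (hs1 : S_sl1) (hs2 : S_sl2) (hs3 : S_sl3)
    (hP : Pair O c χ O' c' χ') (K : ℕ) (hK : 0 < K)
    (hpos : 0 < 2 * (∑ κ ∈ box (n + 1) K, Lam c κ * mY χ 0 κ
      - ∑ κ ∈ box (n + 1) K, ∑ κ' ∈ box (n + 1) K, √(Lam c κ * Lam c κ') * mX χ 0 κ κ' ^ 2))
    (F₀ : Finset (Fin n → ℕ)) (η : ℝ) (hη : 0 < η) :
    ∃ (Ω : Type) (_ : Fintype Ω) (_ : DecidableEq Ω) (q : ℕ) (s : Site Ω (Fin q)),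
      gval (∑ κ ∈ box (n + 1) K, Lam c κ) (∑ κ ∈ box (n + 1) K, Lam c κ * mY χ 0 κ)
        (∑ κ' ∈ F₀, (∑ κ ∈ box (n + 1) K, Lam c κ * ∫ x, bb χ' χ κ' κ x ^ 2) *
          Real.log (Lam c' κ'))
        (∑ κ ∈ box (n + 1) K, Lam c κ * Real.log (Lam c κ))
        (2 * (∑ κ ∈ box (n + 1) K, Lam c κ * mY χ 0 κ
          - ∑ κ ∈ box (n + 1) K, ∑ κ' ∈ box (n + 1) K,
            √(Lam c κ * Lam c κ') * mX χ 0 κ κ' ^ 2)) - η < cstar s := by
  classical
  have hl : ∀ κ, 0 < Lam c κ := fun κ => ((hent _ c hP.pos).1 κ).1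
  have hne : Nonempty (box (n + 1) K) := by
    refine ⟨⟨fun _ => 0, ?_⟩⟩
    unfold box
    rw [Fintype.mem_piFinset]
    intro j
    rw [mem_range]
    exact hK
  have key := hAT (Fin n → ℕ) (box (n + 1) K) (fun κ' κ x => bb χ' χ κ' κ x)
    (fun κ => Lam c κ) (Lam c') (fun κ κ₁ => mX χ 0 κ κ₁) (fun κ => mY χ 0 κ)
    (fun κ => hl κ) (fun κ' => (hent _ c' hP.pos').1 κ')
    (fun κ' κ => (hs1 n O c χ O' c' χ' hP κ' κ).1)
    (fun κ' κ => (hs1 n O c χ O' c' χ' hP κ' κ).2)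
    ?_ ?_ ?_ ?_ ?_ F₀ η hη
  · obtain ⟨Ω, i1, i2, q, s, hs⟩ := key
    refine ⟨Ω, i1, i2, q, s, ?_⟩
    unfold gval
    rw [Finset.sum_coe_sort (box (n + 1) K) (fun κ => Lam c κ),
      Finset.sum_coe_sort (box (n + 1) K) (fun κ => Lam c κ * mY χ 0 κ),
      Finset.sum_coe_sort (box (n + 1) K) (fun κ => Lam c κ * Real.log (Lam c κ))] at hs
    have h1 : ∀ κ : Fin (n + 1) → ℕ, ∑ j' : (box (n + 1) K), √(Lam c κ * Lam c j') * mX χ 0 κ j' ^ 2
        = ∑ j' ∈ box (n + 1) K, √(Lam c κ * Lam c j') * mX χ 0 κ j' ^ 2 := fun κ =>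
      Finset.sum_coe_sort (box (n + 1) K) (fun j' => √(Lam c κ * Lam c j') * mX χ 0 κ j' ^ 2)
    simp only [h1] at hs
    rw [Finset.sum_coe_sort (box (n + 1) K) (fun κ => ∑ κ' ∈ box (n + 1) K,
      √(Lam c κ * Lam c κ') * mX χ 0 κ κ' ^ 2)] at hs
    have h2 : ∀ κ' : Fin n → ℕ, ∑ κ : (box (n + 1) K), Lam c κ * ∫ x, bb χ' χ κ' κ x ^ 2
        = ∑ κ ∈ box (n + 1) K, Lam c κ * ∫ x, bb χ' χ κ' κ x ^ 2 := fun κ' =>
      Finset.sum_coe_sort (box (n + 1) K) (fun κ => Lam c κ * ∫ x, bb χ' χ κ' κ x ^ 2)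
    simp only [h2] at hs
    exact hs
  · intro x F v
    rw [Finset.sum_coe_sort (box (n + 1) K)
      (fun κ => Lam c κ * (∑ i ∈ F, v i * bb χ' χ i κ x) ^ 2)]
    exact sum_le_hasSum _ (fun κ _ => mul_nonneg (hl κ).le (sq_nonneg _))
      (hs2 n O c χ O' c' χ' hP x F v)
  · intro κ κ₁
    have h1 := hs3 n O c χ O' c' χ' hP 0 κ κ₁
    simp only [pow_zero, one_mul] at h1
    rw [hP.h.orth] at h1
    have h2 : (if (κ : Fin (n + 1) → ℕ) = κ₁ then (1 : ℝ) else 0) = if κ = κ₁ then 1 else 0 := by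
      simp only [Subtype.ext_iff]
    rw [h2] at h1
    exact h1
  · intro κ κ₁
    have h1 := hs3 n O c χ O' c' χ' hP 1 κ κ₁
    simp only [pow_one] at h1
    exact h1
  · intro κ
    have h1 := hs3 n O c χ O' c' χ' hP 2 κ κ
    simp only [← sq] at h1
    exact h1
  · rw [Finset.sum_coe_sort (box (n + 1) K) (fun κ => Lam c κ * mY χ 0 κ)]
    have h1 : ∀ κ : Fin (n + 1) → ℕ, ∑ j' : (box (n + 1) K), √(Lam c κ * Lam c j') * mX χ 0 κ j' ^ 2
        = ∑ j' ∈ box (n + 1) K, √(Lam c κ * Lam c j') * mX χ 0 κ j' ^ 2 := fun κ =>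
      Finset.sum_coe_sort (box (n + 1) K) (fun j' => √(Lam c κ * Lam c j') * mX χ 0 κ j' ^ 2)
    simp only [h1]
    rw [Finset.sum_coe_sort (box (n + 1) K) (fun κ => ∑ κ' ∈ box (n + 1) K,
      √(Lam c κ * Lam c κ') * mX χ 0 κ κ' ^ 2)]
    linarith

end

theorem gauss_of (hAT : S_AT) (heig : S_eig) (hm1 : S_modes1) (hm2 : S_modes2) (hs1 : S_sl1)
    (hs2 : S_sl2) (hs3 : S_sl3) (hmom2 : S_mom2) (hen : S_energy) (hent : S_entropy) :
    S_gauss := by
  intro n O c O' c' hO hO' hc hc' hQ η hη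
  choose ψ hψ using fun j => heig (c j) (hc j)
  choose ψ' hψ' using fun j => heig (c' j) (hc' j)
  have hP : Pair O c (chi O ψ) O' c' (chi O' ψ') :=
    ⟨modes hm1 hm2 _ O c ψ hO hc hψ, modes hm1 hm2 _ O' c' ψ' hO' hc' hψ', hc, hc', hQ⟩
  set χ := chi O ψ with hχ
  set χ' := chi O' ψ' with hχ'
  set Ei := ∑ j, O j 0 ^ 2 * eC (c j) with hEi
  have hEi0 : 0 < Ei := energy_pos O hO c hc 0
  have hT := (hent _ c hc).2.1
  have hL := (hent _ c hc).2.2
  have hM := hmom2 (n + 1) O c ψ 0 hO hc hψ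
  have hE := hen (n + 1) O c ψ 0 hO hc hψ
  have hL' := (hent _ c' hc').2.2
  -- choice of `F₀`
  have h1 : ∀ᶠ K' in atTop, ∑ κ ∈ box n K', Lam c' κ * Real.log (Lam c' κ)
      < -∑ j, gH (c' j) + η / 4 := hL'.eventually_lt_const (by linarith)
  obtain ⟨K', hK'⟩ := h1.exists
  -- the limit in `K`
  have hR : Tendsto (fun K => ∑ κ' ∈ box n K', (∑ κ ∈ box (n + 1) K, Lam c κ *
      ∫ x, bb χ' χ κ' κ x ^ 2) * Real.log (Lam c' κ')) atTop
      (𝓝 (∑ κ' ∈ box n K', Lam c' κ' * Real.log (Lam c' κ'))) := by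
    refine tendsto_finsetSum _ fun κ' _ => Tendsto.mul_const _ ?_
    have h4 : Tendsto (fun F : Finset (Fin (n + 1) → ℕ) => ∑ κ ∈ F, Lam c κ *
        ∫ x, bb χ' χ κ' κ x ^ 2) atTop (𝓝 (Lam c' κ')) := hasSum_bb hent hs1 hs2 hP κ'
    exact h4.comp (tendsto_box (n + 1))
  have hlim : Tendsto (fun K => gval (∑ κ ∈ box (n + 1) K, Lam c κ)
        (∑ κ ∈ box (n + 1) K, Lam c κ * mY χ 0 κ)
        (∑ κ' ∈ box n K', (∑ κ ∈ box (n + 1) K, Lam c κ * ∫ x, bb χ' χ κ' κ x ^ 2) *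
          Real.log (Lam c' κ'))
        (∑ κ ∈ box (n + 1) K, Lam c κ * Real.log (Lam c κ))
        (2 * (∑ κ ∈ box (n + 1) K, Lam c κ * mY χ 0 κ
          - ∑ κ ∈ box (n + 1) K, ∑ κ' ∈ box (n + 1) K,
            √(Lam c κ * Lam c κ') * mX χ 0 κ κ' ^ 2))) atTop
      (𝓝 (gval 1 (1 / 2) (∑ κ' ∈ box n K', Lam c' κ' * Real.log (Lam c' κ'))
        (-∑ j, gH (c j)) Ei)) := by
    unfold gval
    refine Tendsto.add (Tendsto.sub (Tendsto.sub (Tendsto.div ?_ hT one_ne_zero)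
      tendsto_const_nhds) (Tendsto.const_mul _ ?_)) tendsto_const_nhds
    · exact (((hT.const_mul _).add hM).sub hR).add hL
    · refine Tendsto.log (Tendsto.div hE hT one_ne_zero) ?_
      rw [div_one]
      exact hEi0.ne'
  have hval : gval 1 (1 / 2) (∑ κ' ∈ box n K', Lam c' κ' * Real.log (Lam c' κ'))
        (-∑ j, gH (c j)) Ei = 1 / 2 * Real.log 2 - ∑ j, gH (c j)
        - ∑ κ' ∈ box n K', Lam c' κ' * Real.log (Lam c' κ') - 1 / 2 * Real.log Ei := by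
    unfold gval
    rw [Real.log_mul (by positivity) (Real.exp_pos _).ne', Real.log_exp,
      Real.log_mul two_ne_zero Real.pi_ne_zero]
    simp only [div_one]
    ring
  have h2 : ∀ᶠ K in atTop, 1 / 2 * Real.log 2 - ∑ j, gH (c j) + ∑ j, gH (c' j)
        - 1 / 2 * Real.log Ei - η / 2 < gval (∑ κ ∈ box (n + 1) K, Lam c κ)
        (∑ κ ∈ box (n + 1) K, Lam c κ * mY χ 0 κ)
        (∑ κ' ∈ box n K', (∑ κ ∈ box (n + 1) K, Lam c κ * ∫ x, bb χ' χ κ' κ x ^ 2) *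
          Real.log (Lam c' κ'))
        (∑ κ ∈ box (n + 1) K, Lam c κ * Real.log (Lam c κ))
        (2 * (∑ κ ∈ box (n + 1) K, Lam c κ * mY χ 0 κ
          - ∑ κ ∈ box (n + 1) K, ∑ κ' ∈ box (n + 1) K,
            √(Lam c κ * Lam c κ') * mX χ 0 κ κ' ^ 2)) := by
    refine hlim.eventually_const_lt ?_
    rw [hval]
    linarith
  have h3 := hE.eventually_const_lt hEi0
  obtain ⟨K, hK1, hK2, hK3⟩ := (h2.and (h3.and (eventually_gt_atTop 0))).exists
  obtain ⟨Ω, i1, i2, q, s, hs⟩ := gauss_step hAT hent hs1 hs2 hs3 hP K hK3 hK2 (box n K') (η / 2)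
    (by positivity)
  exact ⟨Ω, i1, i2, q, s, by linarith⟩

/-! ### The chain -/

theorem cA_pos {c : ℝ} (hc : 0 < c) (n : ℕ) (j : Fin (n + 1)) : 0 < cA c n j := by
  unfold cA
  have hn : (0 : ℝ) < n + 1 := by positivity
  have hj : ((j : ℕ) : ℝ) < n + 1 := by exact_mod_cast j.2
  have h1 : 0 < Real.pi * (2 * (j : ℝ) + 1) / (2 * ((n : ℝ) + 1)) := by
    have := Real.pi_pos
    positivity
  have h2 : Real.pi * (2 * (j : ℝ) + 1) / (2 * ((n : ℝ) + 1)) ≤ Real.pi := by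
    rw [div_le_iff₀ (by positivity)]
    have h3 : ((j : ℕ) : ℝ) + 1 ≤ n + 1 := by exact_mod_cast j.2
    nlinarith [Real.pi_pos]
  have h4 : Real.cos (Real.pi * (2 * (j : ℝ) + 1) / (2 * ((n : ℝ) + 1))) < 1 := by
    have := Real.strictAntiOn_cos (Set.left_mem_Icc.mpr Real.pi_pos.le) ⟨h1.le, h2⟩ h1
    rwa [Real.cos_zero] at this
  exact mul_pos hc (by linarith)

theorem cB_pos {c : ℝ} (hc : 0 < c) (n : ℕ) (j : Fin n) : 0 < cB c n j := by
  unfold cB
  have hn : (0 : ℝ) < n + 1 := by positivity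
  have h1 : 0 < Real.pi * ((j : ℝ) + 1) / ((n : ℝ) + 1) := by
    have := Real.pi_pos
    positivity
  have h2 : Real.pi * ((j : ℝ) + 1) / ((n : ℝ) + 1) ≤ Real.pi := by
    rw [div_le_iff₀ (by positivity)]
    have h3 : ((j : ℕ) : ℝ) + 1 ≤ n := by exact_mod_cast j.2
    nlinarith [Real.pi_pos]
  have h4 : Real.cos (Real.pi * ((j : ℝ) + 1) / ((n : ℝ) + 1)) < 1 := by
    have := Real.strictAntiOn_cos (Set.left_mem_Icc.mpr Real.pi_pos.le) ⟨h1.le, h2⟩ h1
    rwa [Real.cos_zero] at this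
  exact mul_pos hc (by linarith)

theorem main_of (hg : S_gauss) (hch : S_chain) (hsum : S_sum) (havg : S_avg) (htop : S_top) :
    S_main := by
  intro η hη
  obtain ⟨c, hc, hc2⟩ := htop (η / 2) (by positivity)
  have h1 := hsum c hc
  have h2 := havg c hc
  have h0 : 0 < 2 / Real.pi * Real.arctan (1 / √(8 * c)) := by
    have h3 : 0 < Real.arctan (1 / √(8 * c)) := by
      rw [Real.arctan_pos]
      have : 0 < √(8 * c) := Real.sqrt_pos.mpr (by positivity)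
      positivity
    have := Real.pi_pos
    positivity
  have h3 : Tendsto (fun n : ℕ => 1 / 2 * Real.log 2
      - (∑ j, gH (cA c n j) - ∑ j, gH (cB c n j))
      - 1 / 2 * Real.log (∑ j, 1 / ((n : ℝ) + 1) * eC (cA c n j))) atTop
      (𝓝 (1 / 2 * Real.log 2 - 1 / 2 * gH (4 * c)
        - 1 / 2 * Real.log (2 / Real.pi * Real.arctan (1 / √(8 * c))))) := by
    exact (tendsto_const_nhds.sub h1).sub ((h2.log h0.ne').const_mul _)
  obtain ⟨n, hn⟩ := (h3.eventually_const_lt hc2).exists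
  obtain ⟨O, O', hO, hO', hO0, hQ⟩ := hch n
  obtain ⟨Ω, i1, i2, q, s, hs⟩ := hg n O (cA c n) O' (cB c n) hO hO' (cA_pos hc n) (cB_pos hc n)
    (hQ c) (η / 2) (by positivity)
  refine ⟨Ω, i1, i2, q, s, ?_⟩
  simp_rw [hO0] at hs
  linarith

end Pool.Agent.W259.GP
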