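import Pool.Agent.W259.GP.Gauss

/-!
Limits of the box sums of the first and second moments.
-/

open MeasureTheory Finset Filter
open scoped Topology

namespace Pool.Agent.W259.GP

theorem rr_pos {c : ℝ} (hc : 0 < c) : 0 < rr c := by
  unfold rr
  have h : 1 < √(1 + 2 * c) := by
    rw [Real.lt_sqrt (by norm_num)]
    linarith
  exact div_pos (by linarith) (by linarith)

theorem rr_lt {c : ℝ} (hc : 0 < c) : rr c < 1 := by
  unfold rr
  have h : 1 < √(1 + 2 * c) := by
    rw [Real.lt_sqrt (by norm_num)]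
    linarith
  rw [div_lt_one (by linarith)]
  linarith

theorem sqrt_eq_rr {c : ℝ} (hc : 0 < c) : √(1 + 2 * c) = (1 + rr c) / (1 - rr c) := by
  have h : 1 < √(1 + 2 * c) := by
    rw [Real.lt_sqrt (by norm_num)]
    linarith
  unfold rr
  set s := √(1 + 2 * c)
  have h1 : s + 1 ≠ 0 := by linarith
  have h2 : 1 - (s - 1) / (s + 1) = 2 / (s + 1) := by field_simp; ring
  have h3 : 1 + (s - 1) / (s + 1) = 2 * s / (s + 1) := by field_simp; ring
  rw [h2, h3]
  field_simp

theorem eC_eq_rr {c : ℝ} (hc : 0 < c) : eC c = 1 - 2 * √(rr c) / (1 + rr c) := by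
  have hr := rr_pos hc
  have hr1 := rr_lt hc
  have hs := sqrt_eq_rr hc
  unfold eC
  congr 1
  have h1 : 2 * c / (1 + 2 * c) = (2 * √(rr c) / (1 + rr c)) ^ 2 := by
    have h2 : 1 + 2 * c = ((1 + rr c) / (1 - rr c)) ^ 2 := by
      rw [← hs, Real.sq_sqrt (by linarith)]
    have h3 : 2 * c = ((1 + rr c) / (1 - rr c)) ^ 2 - 1 := by linarith
    have h4 : (1 - rr c) ≠ 0 := by linarith
    have h5 : (1 + rr c) ≠ 0 := by linarith
    rw [h2, h3, div_pow (2 * √(rr c)), mul_pow, Real.sq_sqrt hr.le]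
    field_simp
    ring
  rw [h1, Real.sqrt_sq (by positivity)]

/-- product structure of box sums -/
theorem box_prod {m : ℕ} (F : Fin m → ℕ → ℝ) (K : ℕ) :
    ∑ κ ∈ box m K, ∏ l, F l (κ l) = ∏ l, ∑ k ∈ range K, F l k := by
  unfold box
  rw [prod_univ_sum]

theorem box_prod2 {m : ℕ} (G : Fin m → ℕ → ℕ → ℝ) (K : ℕ) :
    ∑ κ ∈ box m K, ∑ κ' ∈ box m K, ∏ l, G l (κ l) (κ' l)
      = ∏ l, ∑ k ∈ range K, ∑ k' ∈ range K, G l k k' := by
  have h : ∀ κ ∈ box m K, ∑ κ' ∈ box m K, ∏ l, G l (κ l) (κ' l)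
      = ∏ l, ∑ k' ∈ range K, G l (κ l) k' := by
    intro κ _
    exact box_prod (fun l k' => G l (κ l) k') K
  rw [sum_congr rfl h, box_prod (fun l k => ∑ k' ∈ range K, G l k k') K]

/-- geometric weights -/
noncomputable def gw (c : ℝ) (k : ℕ) : ℝ := (1 - rr c) * rr c ^ k

theorem gw_pos {c : ℝ} (hc : 0 < c) (k : ℕ) : 0 < gw c k := by
  unfold gw
  have := rr_pos hc
  have := rr_lt hc
  have h : 0 < 1 - rr c := by linarith
  positivity

theorem gw_sum {c : ℝ} (hc : 0 < c) : HasSum (gw c) 1 := by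
  have h1 := rr_pos hc
  have h2 := rr_lt hc
  have h := (hasSum_geometric_of_lt_one h1.le h2).mul_left (1 - rr c)
  rw [mul_inv_cancel₀ (by linarith)] at h
  exact h

theorem hs_congr {f g : ℕ → ℝ} {a : ℝ} (h : HasSum f a) (e : ∀ k, g k = f k) : HasSum g a := by
  have : g = f := funext e
  rw [this]
  exact h

theorem gw_mean {c : ℝ} (hc : 0 < c) :
    HasSum (fun k => gw c k * k) (rr c / (1 - rr c)) := by
  have h1 := rr_pos hc
  have h2 := rr_lt hc
  have h := (hasSum_coe_mul_geometric_of_norm_lt_one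
    (show ‖rr c‖ < 1 by rw [Real.norm_of_nonneg h1.le]; exact h2)).mul_left (1 - rr c)
  have e : (1 - rr c) * (rr c / (1 - rr c) ^ 2) = rr c / (1 - rr c) := by
    have : (1 - rr c) ≠ 0 := by linarith
    field_simp
  rw [e] at h
  refine hs_congr h fun k => ?_
  unfold gw
  ring

theorem mom2_of (h : S_mXY) : S_mom2 := by
  intro m O c ψ i hO hc hψ
  have hY := (h m O c ψ i hO hc hψ).1
  have h1 : ∀ K, ∑ κ ∈ box m K, Lam c κ * mY (chi O ψ) i κ
      = ∑ j, O j i ^ 2 / (2 * √(1 + 2 * c j)) * ∏ l, ∑ k ∈ range K,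
        (if l = j then gw (c l) k * (2 * (k : ℝ) + 1) else gw (c l) k) := by
    intro K
    simp_rw [hY, mul_sum]
    rw [sum_comm]
    refine sum_congr rfl fun j _ => ?_
    rw [← box_prod (fun l k => if l = j then gw (c l) k * (2 * (k : ℝ) + 1) else gw (c l) k) K,
      mul_sum]
    refine sum_congr rfl fun κ _ => ?_
    have h2 : ∏ l, (if l = j then gw (c l) (κ l) * (2 * (κ l : ℝ) + 1) else gw (c l) (κ l))
        = Lam c κ * (2 * (κ j : ℝ) + 1) := by
      have h3 : ∀ l, (if l = j then gw (c l) (κ l) * (2 * (κ l : ℝ) + 1) else gw (c l) (κ l))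
          = gw (c l) (κ l) * (if l = j then (2 * (κ l : ℝ) + 1) else 1) := by
        intro l
        split_ifs <;> simp
      simp_rw [h3]
      rw [prod_mul_distrib, prod_ite_eq' univ j (fun l => 2 * (κ l : ℝ) + 1), if_pos (mem_univ j)]
      rfl
    rw [h2]
    ring
  have h4 : ∀ j l, Tendsto (fun K => ∑ k ∈ range K,
      (if l = j then gw (c l) k * (2 * (k : ℝ) + 1) else gw (c l) k)) atTop
      (𝓝 (if l = j then √(1 + 2 * c l) else 1)) := by
    intro j l
    by_cases hlj : l = j
    · simp only [if_pos hlj]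
      have h5 : HasSum (fun k : ℕ => gw (c l) k * (2 * (k : ℝ) + 1)) (√(1 + 2 * c l)) := by
        have h6 := ((gw_mean (hc l)).mul_left 2).add (gw_sum (hc l))
        have e : 2 * (rr (c l) / (1 - rr (c l))) + 1 = √(1 + 2 * c l) := by
          rw [sqrt_eq_rr (hc l)]
          have := rr_lt (hc l)
          have : (1 - rr (c l)) ≠ 0 := by linarith
          field_simp
          ring
        rw [e] at h6
        exact hs_congr h6 fun k => by ring
      exact h5.tendsto_sum_nat
    · simp only [if_neg hlj]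
      exact (gw_sum (hc l)).tendsto_sum_nat
  have h7 : Tendsto (fun K => ∑ j, O j i ^ 2 / (2 * √(1 + 2 * c j)) * ∏ l, ∑ k ∈ range K,
        (if l = j then gw (c l) k * (2 * (k : ℝ) + 1) else gw (c l) k)) atTop
        (𝓝 (∑ j, O j i ^ 2 / (2 * √(1 + 2 * c j)) *
          ∏ l, (if l = j then √(1 + 2 * c l) else 1))) :=
    tendsto_finsetSum _ fun j _ => (tendsto_finsetProd _ fun l _ => h4 j l).const_mul _
  have h8 : ∑ j, O j i ^ 2 / (2 * √(1 + 2 * c j)) * ∏ l, (if l = j then √(1 + 2 * c l) else 1)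
      = 1 / 2 := by
    have h9 := col_norm O hO i
    calc _ = ∑ j, O j i ^ 2 / 2 := by
          refine sum_congr rfl fun j _ => ?_
          rw [prod_ite_eq' univ j (fun l => √(1 + 2 * c l)), if_pos (mem_univ j)]
          have : 0 < √(1 + 2 * c j) := Real.sqrt_pos.mpr (by have := hc j; linarith)
          field_simp
      _ = _ := by rw [← sum_div, h9]
  rw [h8] at h7
  exact h7.congr fun K => (h1 K).symm

/-- the squared matrix elements of one mode -/
theorem m1_sq (c : ℝ) (hc : 0 < c) (k l : ℕ) : m1 c k l ^ 2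
    = (if l = k + 1 then ((k : ℝ) + 1) / (2 * √(1 + 2 * c)) else 0)
      + (if k = l + 1 then ((l : ℝ) + 1) / (2 * √(1 + 2 * c)) else 0) := by
  unfold m1
  have hs : 0 < √(1 + 2 * c) := Real.sqrt_pos.mpr (by linarith)
  by_cases h1 : l = k + 1
  · have h2 : ¬ k = l + 1 := by omega
    rw [if_pos h1, if_pos h1, if_neg h2, Real.sq_sqrt (by positivity), add_zero]
  · by_cases h2 : k = l + 1
    · rw [if_neg h1, if_pos h2, if_neg h1, if_pos h2, Real.sq_sqrt (by positivity), zero_add]
    · rw [if_neg h1, if_neg h2, if_neg h1, if_neg h2]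
      norm_num

theorem m1_diag (c : ℝ) (k : ℕ) : m1 c k k = 0 := by
  unfold m1
  rw [if_neg (by omega), if_neg (by omega)]

/-- the double sum of one mode -/
theorem mode_lim {c : ℝ} (hc : 0 < c) : Tendsto (fun K => ∑ k ∈ range K, ∑ k' ∈ range K,
    √(gw c k * gw c k') * m1 c k k' ^ 2) atTop (𝓝 (√(rr c) / (1 + rr c))) := by
  set a : ℕ → ℝ := fun k => √(rr c) / (2 * √(1 + 2 * c)) * (gw c k * ((k : ℝ) + 1)) with ha
  have hr := rr_pos hc
  have hr1 := rr_lt hc
  have hsq : ∀ k, √(gw c k * gw c (k + 1)) = √(rr c) * gw c k := by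
    intro k
    have : gw c k * gw c (k + 1) = rr c * gw c k ^ 2 := by
      unfold gw
      ring
    rw [this, Real.sqrt_mul hr.le, Real.sqrt_sq (gw_pos hc k).le]
  have hterm : ∀ k k', √(gw c k * gw c k') * m1 c k k' ^ 2
      = (if k' = k + 1 then a k else 0) + (if k = k' + 1 then a k' else 0) := by
    intro k k'
    rw [m1_sq c hc, mul_add]
    congr 1
    · split_ifs with h
      · subst h
        rw [hsq]
        simp only [ha]
        ring
      · ring
    · split_ifs with h
      · subst h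
        rw [mul_comm (gw c (k' + 1)), hsq]
        simp only [ha]
        ring
      · ring
  have hsum : ∀ K, ∑ k ∈ range K, ∑ k' ∈ range K, √(gw c k * gw c k') * m1 c k k' ^ 2
      = 2 * ∑ k ∈ range (K - 1), a k := by
    intro K
    simp_rw [hterm, sum_add_distrib]
    have h1 : ∑ k ∈ range K, ∑ k' ∈ range K, (if k' = k + 1 then a k else 0)
        = ∑ k ∈ range (K - 1), a k := by
      have h2 : ∀ k ∈ range K, ∑ k' ∈ range K, (if k' = k + 1 then a k else 0)
          = if k + 1 < K then a k else 0 := by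
        intro k _
        rw [sum_ite_eq' (range K) (k + 1) (fun _ => a k)]
        simp only [mem_range]
      rw [sum_congr rfl h2, ← sum_filter]
      congr 1
      ext k
      simp only [mem_filter, mem_range]
      omega
    have h3 : ∑ k ∈ range K, ∑ k' ∈ range K, (if k = k' + 1 then a k' else 0)
        = ∑ k ∈ range (K - 1), a k := by
      rw [sum_comm]
      exact h1
    rw [h1, h3]
    ring
  have hlim : HasSum a (√(rr c) / (2 * √(1 + 2 * c)) * (1 / (1 - rr c))) := by
    refine HasSum.mul_left _ ?_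
    have h1 := (gw_mean hc).add (gw_sum hc)
    have e : rr c / (1 - rr c) + 1 = 1 / (1 - rr c) := by
      have : (1 - rr c) ≠ 0 := by linarith
      field_simp
      ring
    rw [e] at h1
    exact hs_congr h1 fun k => by ring
  have h2 := (hlim.tendsto_sum_nat.comp (tendsto_sub_atTop_nat 1)).const_mul 2
  have e : 2 * (√(rr c) / (2 * √(1 + 2 * c)) * (1 / (1 - rr c))) = √(rr c) / (1 + rr c) := by
    rw [sqrt_eq_rr hc]
    have h3 : (1 - rr c) ≠ 0 := by linarith
    have h4 : (1 + rr c) ≠ 0 := by linarith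
    field_simp
  rw [e] at h2
  exact h2.congr fun K => (hsum K).symm

theorem energy_of (h : S_mXY) : S_energy := by
  intro m O c ψ i hO hc hψ
  have hX := (h m O c ψ i hO hc hψ).2
  have hM := mom2_of h m O c ψ i hO hc hψ
  -- squares of the matrix elements
  have hX2 : ∀ κ κ', mX (chi O ψ) i κ κ' ^ 2
      = ∑ j, O j i ^ 2 * ∏ l, (if l = j then m1 (c l) (κ l) (κ' l) ^ 2
          else if κ l = κ' l then 1 else 0) := by
    intro κ κ'
    rw [hX]
    set A : Fin m → ℝ := fun j => if ∀ l, l ≠ j → κ l = κ' l then m1 (c j) (κ j) (κ' j) else 0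
      with hA
    have h1 : ∀ j j', j ≠ j' → A j * A j' = 0 := by
      intro j j' hjj
      by_cases h2 : ∀ l, l ≠ j → κ l = κ' l
      · by_cases h3 : ∀ l, l ≠ j' → κ l = κ' l
        · have h4 : κ j = κ' j := h3 j hjj
          simp only [hA]
          rw [if_pos h2, h4, m1_diag, zero_mul]
        · simp only [hA]
          rw [if_neg h3, mul_zero]
      · simp only [hA]
        rw [if_neg h2, zero_mul]
    have h5 : ∀ j, A j ^ 2 = ∏ l, (if l = j then m1 (c l) (κ l) (κ' l) ^ 2
          else if κ l = κ' l then 1 else 0) := by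
      intro j
      by_cases h2 : ∀ l, l ≠ j → κ l = κ' l
      · simp only [hA]
        rw [if_pos h2]
        have h6 : ∀ l, (if l = j then m1 (c l) (κ l) (κ' l) ^ 2
            else if κ l = κ' l then (1 : ℝ) else 0)
            = if l = j then m1 (c l) (κ l) (κ' l) ^ 2 else 1 := by
          intro l
          by_cases hl : l = j
          · rw [if_pos hl, if_pos hl]
          · rw [if_neg hl, if_neg hl, if_pos (h2 l hl)]
        simp_rw [h6]
        rw [prod_ite_eq' univ j (fun l => m1 (c l) (κ l) (κ' l) ^ 2), if_pos (mem_univ j)]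
      · have h2' := h2
        push Not at h2'
        obtain ⟨l, hl, hl2⟩ := h2'
        simp only [hA]
        rw [if_neg h2]
        symm
        rw [zero_pow two_ne_zero]
        refine prod_eq_zero (mem_univ l) ?_
        rw [if_neg hl, if_neg hl2]
    rw [sq, sum_mul_sum]
    refine sum_congr rfl fun j _ => ?_
    rw [sum_eq_single j]
    · rw [← h5]
      ring
    · intro j' _ hj'
      have := h1 j j' (Ne.symm hj')
      calc O j i * A j * (O j' i * A j') = O j i * O j' i * (A j * A j') := by ring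
        _ = 0 := by rw [this, mul_zero]
    · intro hj
      exact absurd (mem_univ j) hj
  have hLam : ∀ κ κ', √(Lam c κ * Lam c κ') = ∏ l, √(gw (c l) (κ l) * gw (c l) (κ' l)) := by
    intro κ κ'
    have h1 : Lam c κ * Lam c κ' = (∏ l, √(gw (c l) (κ l) * gw (c l) (κ' l))) ^ 2 := by
      unfold Lam
      rw [← prod_mul_distrib, ← prod_pow]
      refine prod_congr rfl fun l _ => ?_
      rw [Real.sq_sqrt (mul_nonneg (gw_pos (hc l) _).le (gw_pos (hc l) _).le)]
      rfl
    rw [h1, Real.sqrt_sq (prod_nonneg fun l _ => Real.sqrt_nonneg _)]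
  have h1 : ∀ K, ∑ κ ∈ box m K, ∑ κ' ∈ box m K, √(Lam c κ * Lam c κ') *
      mX (chi O ψ) i κ κ' ^ 2 = ∑ j, O j i ^ 2 * ∏ l, ∑ k ∈ range K, ∑ k' ∈ range K,
        (if l = j then √(gw (c l) k * gw (c l) k') * m1 (c l) k k' ^ 2
          else if k = k' then gw (c l) k else 0) := by
    intro K
    have h2 : ∀ κ κ', √(Lam c κ * Lam c κ') * mX (chi O ψ) i κ κ' ^ 2
        = ∑ j, O j i ^ 2 * ∏ l, (if l = j then √(gw (c l) (κ l) * gw (c l) (κ' l)) *
          m1 (c l) (κ l) (κ' l) ^ 2 else if κ l = κ' l then gw (c l) (κ l) else 0) := by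
      intro κ κ'
      rw [hX2, hLam, mul_sum]
      refine sum_congr rfl fun j _ => ?_
      rw [← mul_assoc, mul_comm _ (O j i ^ 2), mul_assoc, ← prod_mul_distrib]
      congr 1
      refine prod_congr rfl fun l _ => ?_
      by_cases hl : l = j
      · rw [if_pos hl, if_pos hl]
      · rw [if_neg hl, if_neg hl]
        by_cases hk : κ l = κ' l
        · rw [if_pos hk, if_pos hk, mul_one, ← hk, Real.sqrt_mul_self (gw_pos (hc l) _).le]
        · rw [if_neg hk, if_neg hk, mul_zero]
    simp_rw [h2]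
    have h3 : ∀ κ ∈ box m K, ∑ κ' ∈ box m K, ∑ j, O j i ^ 2 *
        ∏ l, (if l = j then √(gw (c l) (κ l) * gw (c l) (κ' l)) *
          m1 (c l) (κ l) (κ' l) ^ 2 else if κ l = κ' l then gw (c l) (κ l) else 0)
        = ∑ j, O j i ^ 2 * ∑ κ' ∈ box m K,
        ∏ l, (if l = j then √(gw (c l) (κ l) * gw (c l) (κ' l)) *
          m1 (c l) (κ l) (κ' l) ^ 2 else if κ l = κ' l then gw (c l) (κ l) else 0) := by
      intro κ _
      rw [sum_comm]
      exact sum_congr rfl fun j _ => by rw [mul_sum]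
    rw [sum_congr rfl h3, sum_comm]
    refine sum_congr rfl fun j _ => ?_
    rw [← mul_sum, box_prod2 (fun l k k' => if l = j then √(gw (c l) k * gw (c l) k') *
          m1 (c l) k k' ^ 2 else if k = k' then gw (c l) k else 0) K]
  have h4 : ∀ j l, Tendsto (fun K => ∑ k ∈ range K, ∑ k' ∈ range K,
        (if l = j then √(gw (c l) k * gw (c l) k') * m1 (c l) k k' ^ 2
          else if k = k' then gw (c l) k else 0)) atTop
      (𝓝 (if l = j then √(rr (c l)) / (1 + rr (c l)) else 1)) := by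
    intro j l
    by_cases hl : l = j
    · simp only [if_pos hl]
      exact mode_lim (hc l)
    · simp only [if_neg hl]
      refine (gw_sum (hc l)).tendsto_sum_nat.congr fun K => ?_
      refine sum_congr rfl fun k hk => ?_
      rw [sum_ite_eq (range K) k (fun _ => gw (c l) k), if_pos hk]
  have h5 : Tendsto (fun K => ∑ κ ∈ box m K, ∑ κ' ∈ box m K, √(Lam c κ * Lam c κ') *
      mX (chi O ψ) i κ κ' ^ 2) atTop
      (𝓝 (∑ j, O j i ^ 2 * ∏ l, (if l = j then √(rr (c l)) / (1 + rr (c l)) else 1))) := by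
    have h6 : Tendsto (fun K => ∑ j, O j i ^ 2 * ∏ l, ∑ k ∈ range K, ∑ k' ∈ range K,
        (if l = j then √(gw (c l) k * gw (c l) k') * m1 (c l) k k' ^ 2
          else if k = k' then gw (c l) k else 0)) atTop
      (𝓝 (∑ j, O j i ^ 2 * ∏ l, (if l = j then √(rr (c l)) / (1 + rr (c l)) else 1))) :=
      tendsto_finsetSum _ fun j _ => (tendsto_finsetProd _ fun l _ => h4 j l).const_mul _
    exact h6.congr fun K => (h1 K).symm
  have h7 := (hM.sub h5).const_mul 2
  have h8 : 2 * (1 / 2 - ∑ j, O j i ^ 2 *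
      ∏ l, (if l = j then √(rr (c l)) / (1 + rr (c l)) else 1)) = ∑ j, O j i ^ 2 * eC (c j) := by
    have h9 := col_norm O hO i
    have h10 : ∀ j, ∏ l, (if l = j then √(rr (c l)) / (1 + rr (c l)) else 1)
        = √(rr (c j)) / (1 + rr (c j)) := by
      intro j
      rw [prod_ite_eq' univ j (fun l => √(rr (c l)) / (1 + rr (c l))), if_pos (mem_univ j)]
    simp_rw [h10]
    have h11 : ∀ j, O j i ^ 2 * eC (c j) = O j i ^ 2 - 2 * (O j i ^ 2 *
        (√(rr (c j)) / (1 + rr (c j)))) := by
      intro j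
      rw [eC_eq_rr (hc j)]
      ring
    simp_rw [h11, sum_sub_distrib, ← mul_sum]
    rw [h9]
    ring
  rw [h8] at h7
  exact h7

end Pool.Agent.W259.GP
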