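import Pool.Agent.W259.GP.AT2
import Pool.Agent.W259.GP.Mom
import Pool.Agent.W345.GP.HF
import Pool.Agent.W342.GP.Mehler
import Pool.Agent.W583.GP.Eig
import Pool.Agent.W390.GPM
import Pool.Agent.W417.GP.Modes
import Pool.Agent.W196.GPEnt
import Pool.Agent.W174.GP.Sl
import Pool.Agent.W64.GP.SL3
import Pool.Agent.W338.GP.Site
import Pool.Agent.W583.GP.RS
import Pool.Agent.W417.GP.Chain
import Pool.Agent.W583.GP.Sum
import Pool.Agent.W578.GP.Avg
import Pool.Agent.W583.GP.Top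

/-!
Assembly.
-/

namespace Pool.Agent.W259.GP

theorem s_AT : S_AT := AT_of Pool.Agent.W338.GP.site Pool.Agent.W583.GP.riemann

theorem s_eig : S_eig :=
  Pool.Agent.W583.GP.eig_of Pool.Agent.W345.GP.HF.hf_main Pool.Agent.W342.GP.mehler

theorem s_gauss : S_gauss :=
  gauss_of s_AT s_eig Pool.Agent.W390.GPM.modes1 Pool.Agent.W417.GP.modes2
    Pool.Agent.W174.GP.sl1 Pool.Agent.W174.GP.sl2
    (Pool.Agent.W64.GP.sl3_of Pool.Agent.W174.GP.sl1)
    (mom2_of Pool.Agent.W390.GPM.mXY) (energy_of Pool.Agent.W390.GPM.mXY)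
    Pool.Agent.W196.GPEnt.entropy

theorem s_main : S_main :=
  main_of s_gauss Pool.Agent.W417.GP.chain Pool.Agent.W583.GP.sum Pool.Agent.W578.GP.avg
    Pool.Agent.W583.GP.top

end Pool.Agent.W259.GP
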